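import Mathlib

set_option autoImplicit false

/-!
The polynomials behind the integrals `∫ s^(2a) (25-s²)^b (49-s²)^c / (1225-s²)^(n+1) ds`.
-/

namespace Pool.Agent.J6H8.Sal

open Polynomial Finset

/-- the polynomial `H` -/
noncomputable def HH (a b c : ℕ) : ℤ[X] :=
  (1 - X) ^ (2 * a) * ((C 4 * X - C 3) * (C 4 - C 3 * X)) ^ b *
    ((C 3 * X - C 2) * (C 3 - C 2 * X)) ^ c

/-- the homogenization of `H` -/
theorem HH_homog (a b c : ℕ) : (HH a b c).homogenize (2 * a + 2 * b + 2 * c) =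
    (MvPolynomial.X 1 - MvPolynomial.X 0) ^ (2 * a) *
      ((MvPolynomial.C 4 * MvPolynomial.X 0 - MvPolynomial.C 3 * MvPolynomial.X 1) *
        (MvPolynomial.C 4 * MvPolynomial.X 1 - MvPolynomial.C 3 * MvPolynomial.X 0)) ^ b *
      ((MvPolynomial.C 3 * MvPolynomial.X 0 - MvPolynomial.C 2 * MvPolynomial.X 1) *
        (MvPolynomial.C 3 * MvPolynomial.X 1 - MvPolynomial.C 2 * MvPolynomial.X 0)) ^ c := by
  apply homogenize_eq_of_isHomogeneous
  · have hX : ∀ i : Fin 2, (MvPolynomial.X i : MvPolynomial (Fin 2) ℤ).IsHomogeneous 1 :=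
      fun i => MvPolynomial.isHomogeneous_X _ i
    have hC : ∀ (r : ℤ) (i : Fin 2),
        (MvPolynomial.C r * MvPolynomial.X i : MvPolynomial (Fin 2) ℤ).IsHomogeneous 1 :=
      fun r i => MvPolynomial.isHomogeneous_C_mul_X r i
    have h1 := ((hX 1).sub (hX 0)).pow (2 * a)
    have h2 := ((((hC 4 0).sub (hC 3 1)).mul ((hC 4 1).sub (hC 3 0)))).pow b
    have h3 := ((((hC 3 0).sub (hC 2 1)).mul ((hC 3 1).sub (hC 2 0)))).pow c
    have h4 := (h1.mul h2).mul h3
    have e : 1 * (2 * a) + (1 + 1) * b + (1 + 1) * c = 2 * a + 2 * b + 2 * c := by ring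
    rw [e] at h4
    exact h4
  · simp only [HH, map_mul, map_pow, map_sub, MvPolynomial.aeval_X, MvPolynomial.aeval_C,
      Matrix.cons_val_zero, Matrix.cons_val_one]
    simp

/-- expansion of the homogenized polynomial -/
theorem hom_sum {A : Type*} [CommRing A] (a b c : ℕ) (t t' : A) :
    ∑ i ∈ range (2 * a + 2 * b + 2 * c + 1),
      ((HH a b c).coeff i : A) * t ^ i * t' ^ (2 * a + 2 * b + 2 * c - i) =
    (t' - t) ^ (2 * a) * ((4 * t - 3 * t') * (4 * t' - 3 * t)) ^ b *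
      ((3 * t - 2 * t') * (3 * t' - 2 * t)) ^ c := by
  have h := congrArg (MvPolynomial.aeval ![t, t']) (HH_homog a b c)
  simp only [map_mul, map_pow, map_sub, MvPolynomial.aeval_X, MvPolynomial.aeval_C,
    Matrix.cons_val_zero, Matrix.cons_val_one] at h
  have e : ∀ z : ℤ, (algebraMap ℤ A) z = (z : A) := fun z => rfl
  simp only [e] at h
  push_cast at h
  rw [← h]
  unfold Polynomial.homogenize
  rw [map_sum, Finset.Nat.sum_antidiagonal_eq_sum_range_succ_mk]
  apply sum_congr rfl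
  intro i hi
  rw [MvPolynomial.aeval_monomial, e, mul_assoc]
  congr 1
  simp [Finsupp.prod_fintype, Fin.prod_univ_two, Finsupp.update_apply]

/-- `H` is palindromic -/
theorem HH_symm (a b c : ℕ) (i : ℕ) (hi : i ≤ 2 * a + 2 * b + 2 * c) :
    (HH a b c).coeff (2 * a + 2 * b + 2 * c - i) = (HH a b c).coeff i := by
  set d := 2 * a + 2 * b + 2 * c with hd
  have h1 := hom_sum a b c (X : ℤ[X]) 1
  have h2 := hom_sum a b c (1 : ℤ[X]) X
  have h3 : (X - 1 : ℤ[X]) ^ (2 * a) * ((4 * 1 - 3 * X) * (4 * X - 3 * 1)) ^ b *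
      ((3 * 1 - 2 * X) * (3 * X - 2 * 1)) ^ c = (1 - X : ℤ[X]) ^ (2 * a) *
        ((4 * X - 3 * 1) * (4 * 1 - 3 * X)) ^ b * ((3 * X - 2 * 1) * (3 * 1 - 2 * X)) ^ c := by
    rw [show (X - 1 : ℤ[X]) = -(1 - X) by ring, Even.neg_pow (even_two_mul a), mul_comm (4 * 1 - 3 * X),
      mul_comm (3 * 1 - 2 * X)]
  rw [h3, ← h1] at h2
  rw [← hd] at h2
  have h4 := congrArg (fun P => P.coeff i) h2
  simp only [finsetSum_coeff, one_pow, mul_one] at h4
  have e1 : ∀ j ∈ range (d + 1), (((HH a b c).coeff j : ℤ[X]) * X ^ (d - j)).coeff i =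
      if j = d - i then (HH a b c).coeff j else 0 := by
    intro j hj
    rw [mem_range] at hj
    rw [← C_eq_intCast, coeff_C_mul, coeff_X_pow]
    by_cases h : j = d - i
    · rw [if_pos h, if_pos (by omega), mul_one]
      rfl
    · rw [if_neg h, if_neg (by omega), mul_zero]
  have e2 : ∀ j ∈ range (d + 1), (((HH a b c).coeff j : ℤ[X]) * X ^ j).coeff i =
      if j = i then (HH a b c).coeff j else 0 := by
    intro j hj
    rw [← C_eq_intCast, coeff_C_mul, coeff_X_pow]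
    by_cases h : j = i
    · rw [if_pos h, if_pos h.symm, mul_one]
      rfl
    · rw [if_neg h, if_neg (fun h' => h h'.symm), mul_zero]
  rw [sum_congr rfl e1, sum_congr rfl e2, sum_ite_eq', sum_ite_eq', if_pos (by rw [mem_range]; omega),
    if_pos (by rw [mem_range]; omega)] at h4
  exact h4

end Pool.Agent.J6H8.Sal
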