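import Mathlib
import Pool.Agent.J6H8.Sal.Poly

set_option autoImplicit false

/-!
Decomposition of the integrand into its polar part and its polynomial part.
-/

namespace Pool.Agent.J6H8.Sal

open Polynomial Finset

/-- the polynomial whose low coefficients give the polar part -/
noncomputable def FL (a b c n : ℕ) : ℤ[X] :=
  ∑ i ∈ range (n + 1), C ((HH a b c).coeff i) * X ^ i *
    (C 70 - X) ^ (2 * a + 2 * b + 2 * c - n - 1 - i)

theorem FL_natDegree (a b c n : ℕ) (h : 2 * n + 2 ≤ 2 * a + 2 * b + 2 * c) :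
    (FL a b c n).natDegree ≤ 2 * a + 2 * b + 2 * c - n - 1 := by
  unfold FL
  apply natDegree_sum_le_of_forall_le
  intro i hi
  rw [mem_range] at hi
  refine natDegree_mul_le.trans ?_
  have h1 : (C ((HH a b c).coeff i) * X ^ i : ℤ[X]).natDegree ≤ i := natDegree_C_mul_X_pow_le _ _
  have h2 : ((C 70 - X : ℤ[X]) ^ (2 * a + 2 * b + 2 * c - n - 1 - i)).natDegree ≤
      (2 * a + 2 * b + 2 * c - n - 1 - i) := by
    refine natDegree_pow_le.trans ?_
    have : (C 70 - X : ℤ[X]).natDegree ≤ 1 := by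
      refine (natDegree_sub_le _ _).trans ?_
      rw [natDegree_C, natDegree_X]
      simp
    calc _ ≤ (2 * a + 2 * b + 2 * c - n - 1 - i) * 1 := Nat.mul_le_mul_left _ this
      _ = _ := mul_one _
  omega

/-- explicit coefficients -/
theorem FL_coeff (a b c n j : ℕ) (hj : j ≤ n) :
    (FL a b c n).coeff j = 70 ^ (2 * a + 2 * b + 2 * c - n - 1 - j) *
      ∑ i ∈ range (j + 1), (-1) ^ (j - i) * (HH a b c).coeff i *
        ((2 * a + 2 * b + 2 * c - n - 1 - i).choose (j - i) : ℤ) := by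
  set d := 2 * a + 2 * b + 2 * c - n - 1 with hd
  have hpow : ∀ k l : ℕ, ((C 70 - X : ℤ[X]) ^ k).coeff l = (-1) ^ l * 70 ^ (k - l) * (k.choose l : ℤ) := by
    intro k l
    have e : (C 70 - X : ℤ[X]) = C (-1) * (X + C (-70)) := by
      rw [mul_add, ← C_mul]; simp; ring
    rw [e, mul_pow, ← C_pow, coeff_C_mul, coeff_X_add_C_pow]
    rcases le_or_gt l k with h1 | h1
    · rw [show (-70 : ℤ) = (-1) * 70 by norm_num, mul_pow]
      have e2 : (-1 : ℤ) ^ k * (-1) ^ (k - l) = (-1) ^ l := by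
        rw [← pow_add]
        have : k + (k - l) = 2 * (k - l) + l := by omega
        rw [this, pow_add, pow_mul]
        norm_num
      linear_combination (70 ^ (k - l) * (k.choose l : ℤ)) * e2
    · rw [Nat.choose_eq_zero_of_lt h1]
      simp
  unfold FL
  rw [finsetSum_coeff, ← hd]
  have hsplit : n + 1 = (j + 1) + (n - j) := by omega
  rw [hsplit, sum_range_add]
  have h0 : ∑ x ∈ range (n - j), (C ((HH a b c).coeff (j + 1 + x)) * X ^ (j + 1 + x) *
      (C 70 - X) ^ (d - (j + 1 + x)) : ℤ[X]).coeff j = 0 := by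
    apply sum_eq_zero
    intro x _
    rw [mul_assoc, coeff_C_mul, coeff_X_pow_mul', if_neg (by omega), mul_zero]
  rw [h0, add_zero, mul_sum]
  apply sum_congr rfl
  intro i hi
  rw [mem_range] at hi
  rw [mul_assoc, coeff_C_mul, coeff_X_pow_mul', if_pos (by omega), hpow]
  rw [show d - i - (j - i) = d - j by omega]
  ring

/-- the polynomial part -/
noncomputable def Up (a b c n : ℕ) {A : Type*} [CommRing A] (t t' : A) : A :=
  (∑ j ∈ range (2 * a + 2 * b + 2 * c - 2 * n - 1), ((FL a b c n).coeff (n + 1 + j) : A) *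
      (t ^ j + t' ^ j)) +
    ∑ i ∈ range (2 * a + 2 * b + 2 * c - 2 * n - 1), ((HH a b c).coeff (n + 1 + i) : A) *
      (t ^ i * t' ^ (2 * a + 2 * b + 2 * c - 2 * n - 2 - i))

/-- the polar part -/
noncomputable def Lw (a b c n : ℕ) {A : Type*} [CommRing A] (t t' : A) : A :=
  ∑ j ∈ range (n + 1), ((FL a b c n).coeff j : A) * (t ^ j * t' ^ (n + 1) + t' ^ j * t ^ (n + 1))

theorem FL_eval {A : Type*} [CommRing A] (a b c n : ℕ) (t t' : A) (htt : t + t' = 70) :
    ∑ i ∈ range (n + 1), ((HH a b c).coeff i : A) * t ^ i *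
      t' ^ (2 * a + 2 * b + 2 * c - n - 1 - i) = aeval t (FL a b c n) := by
  unfold FL
  rw [map_sum]
  apply sum_congr rfl
  intro i _
  rw [map_mul, map_mul, map_pow, map_pow, map_sub, aeval_X, aeval_C, aeval_C]
  have : t' = 70 - t := by rw [← htt]; ring
  rw [this]
  simp

theorem decomp {A : Type*} [CommRing A] (a b c n : ℕ) (h : 2 * n + 2 ≤ 2 * a + 2 * b + 2 * c)
    (t t' : A) (htt : t + t' = 70) :
    (t' - t) ^ (2 * a) * ((4 * t - 3 * t') * (4 * t' - 3 * t)) ^ b *
      ((3 * t - 2 * t') * (3 * t' - 2 * t)) ^ c =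
      (t * t') ^ (n + 1) * Up a b c n t t' + Lw a b c n t t' := by
  rw [← hom_sum]
  set D := 2 * a + 2 * b + 2 * c with hD
  have hs : D + 1 = (n + 1) + ((D - 2 * n - 1) + (n + 1)) := by omega
  rw [hs, sum_range_add _ (n + 1), sum_range_add _ (D - 2 * n - 1) (n + 1)]
  -- the first sum
  have hexp : ∀ x : A, aeval x (FL a b c n) = ∑ j ∈ range (n + 1), ((FL a b c n).coeff j : A) * x ^ j +
      x ^ (n + 1) * ∑ j ∈ range (D - 2 * n - 1), ((FL a b c n).coeff (n + 1 + j) : A) * x ^ j := by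
    intro x
    rw [aeval_eq_sum_range' (n := (n + 1) + (D - 2 * n - 1))
      (lt_of_le_of_lt (FL_natDegree a b c n h) (by omega)), sum_range_add]
    congr 1
    · apply sum_congr rfl
      intro j _
      rw [zsmul_eq_mul]
    · rw [mul_sum]
      apply sum_congr rfl
      intro j _
      rw [zsmul_eq_mul, pow_add]
      ring
  have e1 : ∑ x ∈ range (n + 1), ((HH a b c).coeff x : A) * t ^ x * t' ^ (D - x) =
      t' ^ (n + 1) * aeval t (FL a b c n) := by
    rw [← FL_eval a b c n t t' htt, mul_sum]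
    apply sum_congr rfl
    intro i hi
    rw [mem_range] at hi
    rw [show D - i = (n + 1) + (2 * a + 2 * b + 2 * c - n - 1 - i) by omega, pow_add]
    ring
  have e3 : ∑ x ∈ range (n + 1), ((HH a b c).coeff (n + 1 + (D - 2 * n - 1 + x)) : A) *
      t ^ (n + 1 + (D - 2 * n - 1 + x)) * t' ^ (D - (n + 1 + (D - 2 * n - 1 + x))) =
      t ^ (n + 1) * aeval t' (FL a b c n) := by
    rw [← FL_eval a b c n t' t (by rw [add_comm]; exact htt), mul_sum, ← sum_range_reflect]
    apply sum_congr rfl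
    intro i hi
    rw [mem_range] at hi
    have e4 : n + 1 + (D - 2 * n - 1 + (n + 1 - 1 - i)) = D - i := by omega
    have e5 : D - (D - i) = i := by omega
    rw [e4, e5, HH_symm a b c i (by omega)]
    rw [show D - i = (n + 1) + (2 * a + 2 * b + 2 * c - n - 1 - i) by omega, pow_add]
    ring
  have e2 : ∑ x ∈ range (D - 2 * n - 1), ((HH a b c).coeff (n + 1 + x) : A) * t ^ (n + 1 + x) *
      t' ^ (D - (n + 1 + x)) = (t * t') ^ (n + 1) * ∑ i ∈ range (D - 2 * n - 1),
        ((HH a b c).coeff (n + 1 + i) : A) * (t ^ i * t' ^ (D - 2 * n - 2 - i)) := by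
    rw [mul_sum]
    apply sum_congr rfl
    intro i hi
    rw [mem_range] at hi
    rw [show D - (n + 1 + i) = (n + 1) + (D - 2 * n - 2 - i) by omega, pow_add, pow_add, mul_pow]
    ring
  rw [e1, e2, e3, hexp t, hexp t']
  unfold Up Lw
  rw [← hD]
  have e6 : ∑ j ∈ range (D - 2 * n - 1), ((FL a b c n).coeff (n + 1 + j) : A) * (t ^ j + t' ^ j) =
      ∑ j ∈ range (D - 2 * n - 1), ((FL a b c n).coeff (n + 1 + j) : A) * t ^ j +
      ∑ j ∈ range (D - 2 * n - 1), ((FL a b c n).coeff (n + 1 + j) : A) * t' ^ j := by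
    rw [← sum_add_distrib]
    apply sum_congr rfl
    intro j _
    ring
  have e7 : ∑ j ∈ range (n + 1), ((FL a b c n).coeff j : A) * (t ^ j * t' ^ (n + 1) + t' ^ j * t ^ (n + 1)) =
      t' ^ (n + 1) * ∑ j ∈ range (n + 1), ((FL a b c n).coeff j : A) * t ^ j +
      t ^ (n + 1) * ∑ j ∈ range (n + 1), ((FL a b c n).coeff j : A) * t' ^ j := by
    rw [mul_sum, mul_sum, ← sum_add_distrib]
    apply sum_congr rfl
    intro j _
    ring
  rw [e6, e7, mul_pow]
  ring

end Pool.Agent.J6H8.Sal
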