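import Mathlib
import Pool.Agent.J6H8.Sal.Decomp

set_option autoImplicit false

/-!
Divisibility of the coefficients of the polar part.
-/

namespace Pool.Agent.J6H8.Sal

open Polynomial Finset

theorem dvd_of_comp' (F : ℤ[X]) (t e : ℤ) (G : ℤ[X]) (h : F.comp (C t * X) = C e * G) (j : ℕ) :
    e ∣ F.coeff j * t ^ j := by
  have h1 : (F.comp (C t * X)).coeff j = F.coeff j * t ^ j := by
    rw [Polynomial.comp_C_mul_X_coeff]
  rw [← h1, h, coeff_C_mul]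
  exact dvd_mul_right _ _

theorem HH_comp (a b c : ℕ) (t : ℤ) : (HH a b c).comp (C t * X) =
    (1 - C t * X) ^ (2 * a) * ((C (4 * t) * X - C 3) * (C 4 - C (3 * t) * X)) ^ b *
    ((C (3 * t) * X - C 2) * (C 3 - C (2 * t) * X)) ^ c := by
  simp only [HH, mul_comp, pow_comp, sub_comp, X_comp, C_comp, one_comp, C_mul, mul_assoc]

theorem HH_dvd3 (a b c j : ℕ) : (3 : ℤ) ^ (b + c) ∣ (HH a b c).coeff j * 3 ^ j := by
  apply dvd_of_comp' (HH a b c) 3 _ ((1 - C 3 * X) ^ (2 * a) * ((C 4 * X - C 1) * (C 4 - C 9 * X)) ^ b *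
    ((C 9 * X - C 2) * (C 1 - C 2 * X)) ^ c)
  rw [HH_comp]
  have e1 : ((C (4 * 3) * X - C 3) * (C 4 - C (3 * 3) * X) : ℤ[X]) =
      C 3 * ((C 4 * X - C 1) * (C 4 - C 9 * X)) := by
    simp only [map_mul, map_ofNat, map_one]; ring_nf
  have e2 : ((C (3 * 3) * X - C 2) * (C 3 - C (2 * 3) * X) : ℤ[X]) =
      C 3 * ((C 9 * X - C 2) * (C 1 - C 2 * X)) := by
    simp only [map_mul, map_ofNat, map_one]; ring_nf
  rw [e1, e2, mul_pow, mul_pow (C 3) _ c, pow_add, C_mul, C_pow, C_pow]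
  ring

theorem HH_dvd2 (a b c j : ℕ) : (2 : ℤ) ^ (b + c) ∣ (HH a b c).coeff j * 2 ^ j := by
  apply dvd_of_comp' (HH a b c) 2 _ ((1 - C 2 * X) ^ (2 * a) * ((C 8 * X - C 3) * (C 2 - C 3 * X)) ^ b *
    ((C 3 * X - C 1) * (C 3 - C 4 * X)) ^ c)
  rw [HH_comp]
  have e1 : ((C (4 * 2) * X - C 3) * (C 4 - C (3 * 2) * X) : ℤ[X]) =
      C 2 * ((C 8 * X - C 3) * (C 2 - C 3 * X)) := by
    simp only [map_mul, map_ofNat, map_one]; ring_nf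
  have e2 : ((C (3 * 2) * X - C 2) * (C 3 - C (2 * 2) * X) : ℤ[X]) =
      C 2 * ((C 3 * X - C 1) * (C 3 - C 4 * X)) := by
    simp only [map_mul, map_ofNat, map_one]; ring_nf
  rw [e1, e2, mul_pow, mul_pow (C 2) _ c, pow_add, C_mul, C_pow, C_pow]
  ring

theorem HH_dvd4 (a b c j : ℕ) : (2 : ℤ) ^ (2 * b + c) ∣ (HH a b c).coeff j * 4 ^ j := by
  apply dvd_of_comp' (HH a b c) 4 _ ((1 - C 4 * X) ^ (2 * a) * ((C 16 * X - C 3) * (C 1 - C 3 * X)) ^ b *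
    ((C 6 * X - C 1) * (C 3 - C 8 * X)) ^ c)
  rw [HH_comp]
  have e1 : ((C (4 * 4) * X - C 3) * (C 4 - C (3 * 4) * X) : ℤ[X]) =
      C (2 ^ 2) * ((C 16 * X - C 3) * (C 1 - C 3 * X)) := by
    simp only [map_mul, map_ofNat, map_one, map_pow]; ring_nf
  have e2 : ((C (3 * 4) * X - C 2) * (C 3 - C (2 * 4) * X) : ℤ[X]) =
      C 2 * ((C 6 * X - C 1) * (C 3 - C 8 * X)) := by
    simp only [map_mul, map_ofNat, map_one]; ring_nf
  have e3 : (C ((2 : ℤ) ^ (2 * b + c)) : ℤ[X]) = C (2 ^ 2) ^ b * C 2 ^ c := by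
    rw [← C_pow, ← C_pow, ← C_mul, ← pow_mul, ← pow_add]
  rw [e1, e2, mul_pow, mul_pow (C 2) _ c, e3]
  ring

/-- the reduced coefficients -/
noncomputable def gg (a b c n j : ℕ) : ℤ := ∑ i ∈ range (j + 1), (-1) ^ (j - i) * (HH a b c).coeff i *
        ((2 * a + 2 * b + 2 * c - n - 1 - i).choose (j - i) : ℤ)

theorem gg_dvd (a b c n j : ℕ) (t e : ℤ) (h : ∀ i, e ∣ (HH a b c).coeff i * t ^ i) :
    e ∣ t ^ j * gg a b c n j := by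
  unfold gg
  rw [mul_sum]
  apply dvd_sum
  intro i hi
  rw [mem_range] at hi
  have e1 : t ^ j * ((-1) ^ (j - i) * (HH a b c).coeff i *
        ((2 * a + 2 * b + 2 * c - n - 1 - i).choose (j - i) : ℤ)) =
      ((HH a b c).coeff i * t ^ i) * (t ^ (j - i) * ((-1) ^ (j - i) *
        ((2 * a + 2 * b + 2 * c - n - 1 - i).choose (j - i) : ℤ))) := by
    have : t ^ j = t ^ i * t ^ (j - i) := by rw [← pow_add]; congr 1; omega
    rw [this]; ring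
  rw [e1]
  exact Dvd.dvd.mul_right (h i) _

theorem gg_dvd3 (a b c n j : ℕ) (hj : j ≤ b + c) : (3 : ℤ) ^ (b + c - j) ∣ gg a b c n j := by
  have h := gg_dvd a b c n j 3 _ (fun i => HH_dvd3 a b c i)
  rw [show b + c = j + (b + c - j) by omega, pow_add] at h
  exact (mul_dvd_mul_iff_left (by positivity)).1 h

theorem gg_dvd2 (a b c n j : ℕ) (hj : j ≤ b + c) : (2 : ℤ) ^ (b + c - j) ∣ gg a b c n j := by
  have h := gg_dvd a b c n j 2 _ (fun i => HH_dvd2 a b c i)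
  rw [show b + c = j + (b + c - j) by omega, pow_add] at h
  exact (mul_dvd_mul_iff_left (by positivity)).1 h

theorem gg_dvd4 (a b c n j : ℕ) (hj : 2 * j ≤ 2 * b + c) :
    (2 : ℤ) ^ (2 * b + c - 2 * j) ∣ gg a b c n j := by
  have h := gg_dvd a b c n j 4 _ (fun i => HH_dvd4 a b c i)
  rw [show (2 : ℤ) ^ (2 * b + c) = 4 ^ j * 2 ^ (2 * b + c - 2 * j) by
    rw [show (4 : ℤ) = 2 ^ 2 by norm_num, ← pow_mul, ← pow_add]; congr 1; omega] at h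
  exact (mul_dvd_mul_iff_left (by positivity)).1 h

theorem FL_coeff' (a b c n j : ℕ) (hj : j ≤ n) :
    (FL a b c n).coeff j = 70 ^ (2 * a + 2 * b + 2 * c - n - 1 - j) * gg a b c n j :=
  FL_coeff a b c n j hj

/-- combining the prime powers -/
theorem comb (A2 A3 A5 A7 : ℕ) (N : ℤ) (h2 : (2 : ℤ) ^ A2 ∣ N) (h3 : (3 : ℤ) ^ A3 ∣ N)
    (h5 : (5 : ℤ) ^ A5 ∣ N) (h7 : (7 : ℤ) ^ A7 ∣ N) : (2 : ℤ) ^ A2 * 3 ^ A3 * 5 ^ A5 * 7 ^ A7 ∣ N := by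
  have c23 : IsCoprime (2 : ℤ) 3 := ⟨-1, 1, by norm_num⟩
  have c25 : IsCoprime (2 : ℤ) 5 := ⟨-2, 1, by norm_num⟩
  have c27 : IsCoprime (2 : ℤ) 7 := ⟨-3, 1, by norm_num⟩
  have c35 : IsCoprime (3 : ℤ) 5 := ⟨2, -1, by norm_num⟩
  have c37 : IsCoprime (3 : ℤ) 7 := ⟨-2, 1, by norm_num⟩
  have c57 : IsCoprime (5 : ℤ) 7 := ⟨3, -2, by norm_num⟩
  have d1 := (c23.pow (m := A2) (n := A3)).mul_dvd h2 h3
  have k1 : IsCoprime ((2 : ℤ) ^ A2 * 3 ^ A3) (5 ^ A5) := c25.pow.mul_left c35.pow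
  have d2 := k1.mul_dvd d1 h5
  have k2 : IsCoprime ((2 : ℤ) ^ A2 * 3 ^ A3 * 5 ^ A5) (7 ^ A7) :=
    (c27.pow.mul_left c37.pow).mul_left c57.pow
  exact k2.mul_dvd d2 h7

section main

variable (m e1 e2 : ℕ)

/-- the parameters: `a = m`, `b = m + e2`, `c = m + e1`, `n = 2 m` -/
theorem dvd28 (j : ℕ) (hj : j < 2 * m) : (4 : ℤ) ^ m * 49 ^ (m + e2) * 25 ^ (m + e1) * 28 ^ (2 * m - j) ∣
    70 * 2 ^ m * (FL m (m + e2) (m + e1) (2 * m)).coeff j := by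
  rw [FL_coeff' _ _ _ _ _ hj.le]
  set d := 2 * m + 2 * (m + e2) + 2 * (m + e1) - 2 * m - 1 - j with hd
  have e : (4 : ℤ) ^ m * 49 ^ (m + e2) * 25 ^ (m + e1) * 28 ^ (2 * m - j) =
      2 ^ (2 * m + 2 * (2 * m - j)) * 3 ^ 0 * 5 ^ (2 * (m + e1)) * 7 ^ (2 * (m + e2) + (2 * m - j)) := by
    rw [show (4 : ℤ) = 2 ^ 2 by norm_num, show (49 : ℤ) = 7 ^ 2 by norm_num,
      show (25 : ℤ) = 5 ^ 2 by norm_num, show (28 : ℤ) = 2 ^ 2 * 7 by norm_num, mul_pow, ← pow_mul,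
      ← pow_mul, ← pow_mul, ← pow_mul, pow_add, pow_add (7 : ℤ)]
    ring
  have e' : (70 : ℤ) * 2 ^ m * (70 ^ d * gg m (m + e2) (m + e1) (2 * m) j) =
      2 ^ (1 + m + d) * 5 ^ (1 + d) * 7 ^ (1 + d) * gg m (m + e2) (m + e1) (2 * m) j := by
    rw [show (70 : ℤ) = 2 * 5 * 7 by norm_num, mul_pow, mul_pow, pow_add, pow_add, pow_add, pow_add]
    ring
  rw [e, e']
  apply comb
  · have h := gg_dvd2 m (m + e2) (m + e1) (2 * m) j (by omega)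
    have h' : (2 : ℤ) ^ (2 * m + 2 * (2 * m - j)) ∣ 2 ^ (1 + m + d) * 2 ^ (m + e2 + (m + e1) - j) := by
      rw [← pow_add]; exact pow_dvd_pow _ (by omega)
    refine h'.trans ((mul_dvd_mul_left _ h).trans ?_)
    exact ⟨5 ^ (1 + d) * 7 ^ (1 + d), by ring⟩
  · simp
  · refine (pow_dvd_pow 5 (show 2 * (m + e1) ≤ 1 + d by omega)).trans ?_
    exact ⟨2 ^ (1 + m + d) * 7 ^ (1 + d) * gg m (m + e2) (m + e1) (2 * m) j, by ring⟩
  · refine (pow_dvd_pow 7 (show 2 * (m + e2) + (2 * m - j) ≤ 1 + d by omega)).trans ?_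
    exact ⟨2 ^ (1 + m + d) * 5 ^ (1 + d) * gg m (m + e2) (m + e1) (2 * m) j, by ring⟩

theorem dvd30 (j : ℕ) (hj : j < 2 * m) : (4 : ℤ) ^ m * 49 ^ (m + e2) * 25 ^ (m + e1) * 30 ^ (2 * m - j) ∣
    70 * 2 ^ m * (FL m (m + e2) (m + e1) (2 * m)).coeff j := by
  rw [FL_coeff' _ _ _ _ _ hj.le]
  set d := 2 * m + 2 * (m + e2) + 2 * (m + e1) - 2 * m - 1 - j with hd
  have e : (4 : ℤ) ^ m * 49 ^ (m + e2) * 25 ^ (m + e1) * 30 ^ (2 * m - j) =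
      2 ^ (2 * m + (2 * m - j)) * 3 ^ (2 * m - j) * 5 ^ (2 * (m + e1) + (2 * m - j)) *
        7 ^ (2 * (m + e2)) := by
    rw [show (4 : ℤ) = 2 ^ 2 by norm_num, show (49 : ℤ) = 7 ^ 2 by norm_num,
      show (25 : ℤ) = 5 ^ 2 by norm_num, show (30 : ℤ) = 2 * 3 * 5 by norm_num, mul_pow, mul_pow,
      ← pow_mul, ← pow_mul, ← pow_mul, pow_add, pow_add (5 : ℤ)]
    ring
  have e' : (70 : ℤ) * 2 ^ m * (70 ^ d * gg m (m + e2) (m + e1) (2 * m) j) =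
      2 ^ (1 + m + d) * 5 ^ (1 + d) * 7 ^ (1 + d) * gg m (m + e2) (m + e1) (2 * m) j := by
    rw [show (70 : ℤ) = 2 * 5 * 7 by norm_num, mul_pow, mul_pow, pow_add, pow_add, pow_add, pow_add]
    ring
  rw [e, e']
  apply comb
  · refine (pow_dvd_pow 2 (show 2 * m + (2 * m - j) ≤ 1 + m + d by omega)).trans ?_
    exact ⟨5 ^ (1 + d) * 7 ^ (1 + d) * gg m (m + e2) (m + e1) (2 * m) j, by ring⟩
  · have h := gg_dvd3 m (m + e2) (m + e1) (2 * m) j (by omega)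
    refine (pow_dvd_pow 3 (show 2 * m - j ≤ m + e2 + (m + e1) - j by omega)).trans (h.trans ?_)
    exact ⟨2 ^ (1 + m + d) * 5 ^ (1 + d) * 7 ^ (1 + d), by ring⟩
  · refine (pow_dvd_pow 5 (show 2 * (m + e1) + (2 * m - j) ≤ 1 + d by omega)).trans ?_
    exact ⟨2 ^ (1 + m + d) * 7 ^ (1 + d) * gg m (m + e2) (m + e1) (2 * m) j, by ring⟩
  · refine (pow_dvd_pow 7 (show 2 * (m + e2) ≤ 1 + d by omega)).trans ?_
    exact ⟨2 ^ (1 + m + d) * 5 ^ (1 + d) * gg m (m + e2) (m + e1) (2 * m) j, by ring⟩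

theorem dvd42 (j : ℕ) (hj : j < 2 * m) : (4 : ℤ) ^ m * 49 ^ (m + e2) * 25 ^ (m + e1) * 42 ^ (2 * m - j) ∣
    70 * 2 ^ m * (FL m (m + e2) (m + e1) (2 * m)).coeff j := by
  rw [FL_coeff' _ _ _ _ _ hj.le]
  set d := 2 * m + 2 * (m + e2) + 2 * (m + e1) - 2 * m - 1 - j with hd
  have e : (4 : ℤ) ^ m * 49 ^ (m + e2) * 25 ^ (m + e1) * 42 ^ (2 * m - j) =
      2 ^ (2 * m + (2 * m - j)) * 3 ^ (2 * m - j) * 5 ^ (2 * (m + e1)) *
        7 ^ (2 * (m + e2) + (2 * m - j)) := by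
    rw [show (4 : ℤ) = 2 ^ 2 by norm_num, show (49 : ℤ) = 7 ^ 2 by norm_num,
      show (25 : ℤ) = 5 ^ 2 by norm_num, show (42 : ℤ) = 2 * 3 * 7 by norm_num, mul_pow, mul_pow,
      ← pow_mul, ← pow_mul, ← pow_mul, pow_add, pow_add (7 : ℤ)]
    ring
  have e' : (70 : ℤ) * 2 ^ m * (70 ^ d * gg m (m + e2) (m + e1) (2 * m) j) =
      2 ^ (1 + m + d) * 5 ^ (1 + d) * 7 ^ (1 + d) * gg m (m + e2) (m + e1) (2 * m) j := by
    rw [show (70 : ℤ) = 2 * 5 * 7 by norm_num, mul_pow, mul_pow, pow_add, pow_add, pow_add, pow_add]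
    ring
  rw [e, e']
  apply comb
  · refine (pow_dvd_pow 2 (show 2 * m + (2 * m - j) ≤ 1 + m + d by omega)).trans ?_
    exact ⟨5 ^ (1 + d) * 7 ^ (1 + d) * gg m (m + e2) (m + e1) (2 * m) j, by ring⟩
  · have h := gg_dvd3 m (m + e2) (m + e1) (2 * m) j (by omega)
    refine (pow_dvd_pow 3 (show 2 * m - j ≤ m + e2 + (m + e1) - j by omega)).trans (h.trans ?_)
    exact ⟨2 ^ (1 + m + d) * 5 ^ (1 + d) * 7 ^ (1 + d), by ring⟩
  · refine (pow_dvd_pow 5 (show 2 * (m + e1) ≤ 1 + d by omega)).trans ?_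
    exact ⟨2 ^ (1 + m + d) * 7 ^ (1 + d) * gg m (m + e2) (m + e1) (2 * m) j, by ring⟩
  · refine (pow_dvd_pow 7 (show 2 * (m + e2) + (2 * m - j) ≤ 1 + d by omega)).trans ?_
    exact ⟨2 ^ (1 + m + d) * 5 ^ (1 + d) * gg m (m + e2) (m + e1) (2 * m) j, by ring⟩

theorem dvd40 (j : ℕ) (hj : j < 2 * m) : (4 : ℤ) ^ m * 49 ^ (m + e2) * 25 ^ (m + e1) * 40 ^ (2 * m - j) ∣
    70 * 2 ^ m * (FL m (m + e2) (m + e1) (2 * m)).coeff j := by
  rw [FL_coeff' _ _ _ _ _ hj.le]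
  set d := 2 * m + 2 * (m + e2) + 2 * (m + e1) - 2 * m - 1 - j with hd
  have e : (4 : ℤ) ^ m * 49 ^ (m + e2) * 25 ^ (m + e1) * 40 ^ (2 * m - j) =
      2 ^ (2 * m + 3 * (2 * m - j)) * 3 ^ 0 * 5 ^ (2 * (m + e1) + (2 * m - j)) *
        7 ^ (2 * (m + e2)) := by
    rw [show (4 : ℤ) = 2 ^ 2 by norm_num, show (49 : ℤ) = 7 ^ 2 by norm_num,
      show (25 : ℤ) = 5 ^ 2 by norm_num, show (40 : ℤ) = 2 ^ 3 * 5 by norm_num, mul_pow,
      ← pow_mul, ← pow_mul, ← pow_mul, ← pow_mul, pow_add, pow_add (5 : ℤ)]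
    ring
  have e' : (70 : ℤ) * 2 ^ m * (70 ^ d * gg m (m + e2) (m + e1) (2 * m) j) =
      2 ^ (1 + m + d) * 5 ^ (1 + d) * 7 ^ (1 + d) * gg m (m + e2) (m + e1) (2 * m) j := by
    rw [show (70 : ℤ) = 2 * 5 * 7 by norm_num, mul_pow, mul_pow, pow_add, pow_add, pow_add, pow_add]
    ring
  rw [e, e']
  apply comb
  · rcases le_or_gt (2 * j) (2 * (m + e2) + (m + e1)) with h2 | h2
    · have h := gg_dvd4 m (m + e2) (m + e1) (2 * m) j h2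
      have h' : (2 : ℤ) ^ (2 * m + 3 * (2 * m - j)) ∣
          2 ^ (1 + m + d) * 2 ^ (2 * (m + e2) + (m + e1) - 2 * j) := by
        rw [← pow_add]; exact pow_dvd_pow _ (by omega)
      refine h'.trans ((mul_dvd_mul_left _ h).trans ?_)
      exact ⟨5 ^ (1 + d) * 7 ^ (1 + d), by ring⟩
    · refine (pow_dvd_pow 2 (show 2 * m + 3 * (2 * m - j) ≤ 1 + m + d by omega)).trans ?_
      exact ⟨5 ^ (1 + d) * 7 ^ (1 + d) * gg m (m + e2) (m + e1) (2 * m) j, by ring⟩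
  · simp
  · refine (pow_dvd_pow 5 (show 2 * (m + e1) + (2 * m - j) ≤ 1 + d by omega)).trans ?_
    exact ⟨2 ^ (1 + m + d) * 7 ^ (1 + d) * gg m (m + e2) (m + e1) (2 * m) j, by ring⟩
  · refine (pow_dvd_pow 7 (show 2 * (m + e2) ≤ 1 + d by omega)).trans ?_
    exact ⟨2 ^ (1 + m + d) * 5 ^ (1 + d) * gg m (m + e2) (m + e1) (2 * m) j, by ring⟩

end main

end Pool.Agent.J6H8.Sal
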