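import Mathlib
import Pool.Agent.J6H8.Sal.Dvd

set_option autoImplicit false

/-!
Sign and size of the coefficient of the logarithm.
-/

namespace Pool.Agent.J6H8.Sal

open Polynomial Finset

/-- the companion of `H` with nonnegative coefficients -/
noncomputable def PP (a b c : ℕ) : ℝ[X] :=
  (1 + X) ^ (2 * a) * ((C 4 * X + C 3) * (C 4 + C 3 * X)) ^ b *
    ((C 3 * X + C 2) * (C 3 + C 2 * X)) ^ c

theorem nonneg_mul {P Q : ℝ[X]} (hP : ∀ j, 0 ≤ P.coeff j) (hQ : ∀ j, 0 ≤ Q.coeff j) (j : ℕ) :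
    0 ≤ (P * Q).coeff j := by
  rw [coeff_mul]
  exact sum_nonneg fun x _ => mul_nonneg (hP _) (hQ _)

theorem nonneg_pow {P : ℝ[X]} (hP : ∀ j, 0 ≤ P.coeff j) (k : ℕ) : ∀ j, 0 ≤ (P ^ k).coeff j := by
  induction k with
  | zero =>
    intro j
    rw [pow_zero, coeff_one]
    split_ifs <;> norm_num
  | succ k ih =>
    intro j
    rw [pow_succ]
    exact nonneg_mul ih hP j

theorem nonneg_lin {r s : ℝ} (hr : 0 ≤ r) (hs : 0 ≤ s) (j : ℕ) : 0 ≤ (C s * X + C r : ℝ[X]).coeff j := by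
  rw [coeff_add, coeff_C_mul, coeff_X, coeff_C]
  split_ifs <;> nlinarith

theorem PP_nonneg (a b c j : ℕ) : 0 ≤ (PP a b c).coeff j := by
  unfold PP
  apply nonneg_mul
  · apply nonneg_mul
    · apply nonneg_pow
      intro j
      have := nonneg_lin (r := 1) (s := 1) (by norm_num) (by norm_num) j
      rw [C_1, one_mul, add_comm] at this
      exact this
    · apply nonneg_pow
      apply nonneg_mul
      · exact nonneg_lin (by norm_num) (by norm_num)
      · intro j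
        rw [add_comm]
        exact nonneg_lin (by norm_num) (by norm_num) j
  · apply nonneg_pow
    apply nonneg_mul
    · exact nonneg_lin (by norm_num) (by norm_num)
    · intro j
      rw [add_comm]
      exact nonneg_lin (by norm_num) (by norm_num) j

theorem HH_PP (a b c i : ℕ) : (-1 : ℝ) ^ i * ((HH a b c).coeff i : ℝ) =
    (-1) ^ (b + c) * (PP a b c).coeff i := by
  have h0 : (((HH a b c).comp (C (-1) * X)).map (Int.castRingHom ℝ)) = C ((-1) ^ (b + c)) * PP a b c := by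
    rw [HH_comp]
    simp only [Polynomial.map_mul, Polynomial.map_pow, Polynomial.map_sub, map_X, map_C, PP,
      Polynomial.map_one, pow_add]
    simp only [map_mul, map_neg, map_one, map_ofNat, map_pow]
    rw [show ((4 * -1 * X - 3) * (4 - 3 * -1 * X) : ℝ[X]) = -1 * ((4 * X + 3) * (4 + 3 * X)) by ring,
      show ((3 * -1 * X - 2) * (3 - 2 * -1 * X) : ℝ[X]) = -1 * ((3 * X + 2) * (3 + 2 * X)) by ring,
      mul_pow (-1) _ b, mul_pow (-1) _ c]
    ring
  have h1 := congrArg (fun P => P.coeff i) h0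
  simp only [coeff_map, comp_C_mul_X_coeff, coeff_C_mul] at h1
  rw [← h1]
  simp
  ring

theorem gg_PP (a b c n : ℕ) : (gg a b c n n : ℝ) = (-1) ^ (n + b + c) *
    ∑ i ∈ range (n + 1), (PP a b c).coeff i *
      ((2 * a + 2 * b + 2 * c - n - 1 - i).choose (n - i) : ℝ) := by
  unfold gg
  push_cast
  rw [mul_sum]
  apply sum_congr rfl
  intro i hi
  rw [mem_range] at hi
  have h1 := HH_PP a b c i
  have h2 : (-1 : ℝ) ^ (n - i) = (-1) ^ n * (-1) ^ i := by
    have : n = (n - i) + i := by omega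
    conv_rhs => rw [this, pow_add, mul_assoc, ← pow_add, ← two_mul, pow_mul]
    norm_num
  rw [h2, mul_assoc ((-1 : ℝ) ^ n) _ _, h1, pow_add, pow_add, pow_add]
  ring

theorem gg_sign (a b c n : ℕ) : 0 ≤ (-1 : ℝ) ^ (n + b + c) * (gg a b c n n : ℝ) := by
  rw [gg_PP, ← mul_assoc, ← mul_pow]
  norm_num
  exact sum_nonneg fun i _ => mul_nonneg (PP_nonneg _ _ _ _) (Nat.cast_nonneg _)

theorem choose_bound {ρ : ℝ} (h0 : 0 < ρ) (h1 : ρ < 1) (E k : ℕ) :
    ((E + k).choose k : ℝ) * (ρ ^ k * (1 - ρ) ^ E) ≤ 1 := by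
  have h := add_pow ρ (1 - ρ) (E + k)
  rw [show ρ + (1 - ρ) = 1 by ring, one_pow] at h
  have h2 : ρ ^ k * (1 - ρ) ^ (E + k - k) * ((E + k).choose k : ℝ) ≤
      ∑ m ∈ range (E + k + 1), ρ ^ m * (1 - ρ) ^ (E + k - m) * ((E + k).choose m : ℝ) := by
    apply single_le_sum (f := fun m => ρ ^ m * (1 - ρ) ^ (E + k - m) * ((E + k).choose m : ℝ))
    · intro i _
      have : 0 < 1 - ρ := by linarith
      positivity
    · rw [mem_range]; omega
  rw [← h, Nat.add_sub_cancel] at h2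
  linarith

theorem gg_bound (a b c n : ℕ) (h : 2 * n + 1 ≤ 2 * a + 2 * b + 2 * c) {ρ : ℝ} (h0 : 0 < ρ)
    (h1 : ρ < 1) : |(gg a b c n n : ℝ)| * (ρ ^ n * (1 - ρ) ^ (2 * a + 2 * b + 2 * c - 2 * n - 1)) ≤
      (PP a b c).eval ρ := by
  set E := 2 * a + 2 * b + 2 * c - 2 * n - 1 with hE
  have hr : 0 < 1 - ρ := by linarith
  rw [gg_PP, abs_mul, abs_pow, abs_neg, abs_one, one_pow, one_mul, abs_of_nonneg
    (sum_nonneg fun i _ => mul_nonneg (PP_nonneg _ _ _ _) (Nat.cast_nonneg _)), sum_mul]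
  have h2 : ∑ i ∈ range (n + 1), (PP a b c).coeff i *
      ((2 * a + 2 * b + 2 * c - n - 1 - i).choose (n - i) : ℝ) * (ρ ^ n * (1 - ρ) ^ E) ≤
      ∑ i ∈ range (n + 1), (PP a b c).coeff i * ρ ^ i := by
    apply sum_le_sum
    intro i hi
    rw [mem_range] at hi
    have h3 := choose_bound h0 h1 E (n - i)
    rw [show 2 * a + 2 * b + 2 * c - n - 1 - i = E + (n - i) by omega]
    have h4 : ρ ^ n = ρ ^ i * ρ ^ (n - i) := by rw [← pow_add]; congr 1; omega
    have h5 := mul_le_mul_of_nonneg_left h3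
      (mul_nonneg (PP_nonneg a b c i) (pow_nonneg h0.le i))
    rw [h4]
    calc (PP a b c).coeff i * ((E + (n - i)).choose (n - i) : ℝ) * (ρ ^ i * ρ ^ (n - i) * (1 - ρ) ^ E)
        = (PP a b c).coeff i * ρ ^ i * (((E + (n - i)).choose (n - i) : ℝ) *
            (ρ ^ (n - i) * (1 - ρ) ^ E)) := by ring
      _ ≤ (PP a b c).coeff i * ρ ^ i * 1 := h5
      _ = _ := by ring
  refine h2.trans ?_
  rw [eval_eq_sum_range' (n := max (n + 1) ((PP a b c).natDegree + 1)) (by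
    exact lt_of_lt_of_le (Nat.lt_succ_self _) (le_max_right _ _))]
  apply sum_le_sum_of_subset_of_nonneg
  · exact range_mono (le_max_left _ _)
  · intro i _ _
    exact mul_nonneg (PP_nonneg _ _ _ _) (pow_nonneg h0.le _)

theorem PP_eval (a b c : ℕ) (ρ : ℝ) : (PP a b c).eval ρ =
    (1 + ρ) ^ (2 * a) * ((4 * ρ + 3) * (4 + 3 * ρ)) ^ b * ((3 * ρ + 2) * (3 + 2 * ρ)) ^ c := by
  unfold PP
  simp

/-- size of the coefficient of the logarithm -/
theorem A_bound (m e1 e2 : ℕ) (hm : 1 ≤ m) (he1 : e1 ≤ 1) (he2 : e2 ≤ 1) :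
    |((FL m (m + e2) (m + e1) (2 * m)).coeff (2 * m) : ℝ)| ≤
      200000 * 8102 ^ m * (4 ^ m * 49 ^ (m + e2) * 25 ^ (m + e1)) := by
  rw [FL_coeff' _ _ _ _ _ le_rfl]
  have h := gg_bound m (m + e2) (m + e1) (2 * m) (by omega) (ρ := 9 / 34) (by norm_num) (by norm_num)
  rw [PP_eval] at h
  have hE : 2 * m + 2 * (m + e2) + 2 * (m + e1) - 2 * (2 * m) - 1 = 2 * m + 2 * e1 + 2 * e2 - 1 := by
    omega
  have hE' : 2 * m + 2 * (m + e2) + 2 * (m + e1) - 2 * m - 1 - 2 * m = 2 * m + 2 * e1 + 2 * e2 - 1 := by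
    omega
  rw [hE] at h
  rw [hE']
  set E := 2 * m + 2 * e1 + 2 * e2 - 1 with hEdef
  have hE1 : E + 1 = 2 * m + 2 * e1 + 2 * e2 := by omega
  push_cast
  rw [abs_mul, abs_pow, abs_of_pos (show (0 : ℝ) < 70 by norm_num)]
  set G := |(gg m (m + e2) (m + e1) (2 * m) (2 * m) : ℝ)| with hG
  norm_num at h
  -- multiply by 70 and compare
  have h70 : (70 : ℝ) ^ E * 70 = (4900 : ℝ) ^ m * 4900 ^ e1 * 4900 ^ e2 := by
    rw [← pow_succ, hE1, pow_add, pow_add, pow_mul, pow_mul, pow_mul]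
    norm_num
  have h25 : ((25 : ℝ) / 34) ^ E * (25 / 34) = ((625 : ℝ) / 1156) ^ m * (625 / 1156) ^ e1 * (625 / 1156) ^ e2 := by
    rw [← pow_succ, hE1, pow_add, pow_add, pow_mul, pow_mul, pow_mul]
    norm_num
  have h9 : ((9 : ℝ) / 34) ^ (2 * m) = (81 / 1156) ^ m := by
    rw [pow_mul]; norm_num
  have h43 : ((43 : ℝ) / 34) ^ (2 * m) = (1849 / 1156) ^ m := by
    rw [pow_mul]; norm_num
  rw [h9, h43] at h
  have h' : G * ((81 / 1156) ^ m * (((625 : ℝ) / 1156) ^ m * (625 / 1156) ^ e1 * (625 / 1156) ^ e2)) ≤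
      (25 / 34) * ((1849 / 1156) ^ m * (11247 / 578) ^ (m + e2) * (2850 / 289) ^ (m + e1)) := by
    rw [← h25]
    calc G * ((81 / 1156) ^ m * (((25 : ℝ) / 34) ^ E * (25 / 34))) =
        (25 / 34) * (G * ((81 / 1156) ^ m * (25 / 34) ^ E)) := by ring
      _ ≤ _ := mul_le_mul_of_nonneg_left h (by norm_num)
  have hpos : (0 : ℝ) < (81 / 1156) ^ m * (((625 : ℝ) / 1156) ^ m * (625 / 1156) ^ e1 * (625 / 1156) ^ e2) := by
    positivity
  have hG2 : G ≤ (25 / 34) * ((1849 / 1156) ^ m * (11247 / 578) ^ (m + e2) * (2850 / 289) ^ (m + e1)) /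
      ((81 / 1156) ^ m * (((625 : ℝ) / 1156) ^ m * (625 / 1156) ^ e1 * (625 / 1156) ^ e2)) := by
    rw [le_div_iff₀ hpos]; exact h'
  have h70' : (70 : ℝ) ^ E = (4900 : ℝ) ^ m * 4900 ^ e1 * 4900 ^ e2 / 70 := by
    rw [← h70]; ring
  rw [h70']
  have hc1 : (4900 * (2850 / 289) / (25 * (625 / 1156)) : ℝ) ^ e1 ≤ 3576 := by
    interval_cases e1
    · norm_num
    · norm_num
  have hc2 : (4900 * (11247 / 578) / (49 * (625 / 1156)) : ℝ) ^ e2 ≤ 3600 := by
    interval_cases e2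
    · norm_num
    · norm_num
  have hq : ((1849 / 1156) * (11247 / 578) * (2850 / 289) / ((81 / 1156) * (625 / 1156)) : ℝ) ^ m ≤ 8102 ^ m := by
    apply pow_le_pow_left₀ (by norm_num)
    norm_num
  calc (4900 : ℝ) ^ m * 4900 ^ e1 * 4900 ^ e2 / 70 * G
      ≤ (4900 : ℝ) ^ m * 4900 ^ e1 * 4900 ^ e2 / 70 *
        ((25 / 34) * ((1849 / 1156) ^ m * (11247 / 578) ^ (m + e2) * (2850 / 289) ^ (m + e1)) /
      ((81 / 1156) ^ m * (((625 : ℝ) / 1156) ^ m * (625 / 1156) ^ e1 * (625 / 1156) ^ e2))) :=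
        mul_le_mul_of_nonneg_left hG2 (by positivity)
    _ = (25 / 34 / 70) * (4900 * (2850 / 289) / (25 * (625 / 1156)) : ℝ) ^ e1 *
        (4900 * (11247 / 578) / (49 * (625 / 1156)) : ℝ) ^ e2 *
        ((1849 / 1156) * (11247 / 578) * (2850 / 289) / ((81 / 1156) * (625 / 1156)) : ℝ) ^ m *
        (4 ^ m * 49 ^ (m + e2) * 25 ^ (m + e1)) := by
        simp only [pow_add, mul_pow, div_pow]
        rw [show (4900 : ℝ) ^ m = 4 ^ m * 49 ^ m * 25 ^ m by rw [← mul_pow, ← mul_pow]; norm_num]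
        field_simp
    _ ≤ (25 / 34 / 70) * 3576 * 3600 * 8102 ^ m * (4 ^ m * 49 ^ (m + e2) * 25 ^ (m + e1)) := by
        gcongr
    _ ≤ _ := by
        apply mul_le_mul_of_nonneg_right _ (by positivity)
        apply mul_le_mul_of_nonneg_right _ (by positivity)
        norm_num

end Pool.Agent.J6H8.Sal
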