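import Mathlib
import Pool.Agent.J6H8.Sal.Coef

set_option autoImplicit false

/-!
The integrals `∫_0^y s^(2a) (25-s²)^b (49-s²)^c / (1225-s²)^(n+1) ds`.
-/

namespace Pool.Agent.J6H8.Sal

open Polynomial Finset MeasureTheory intervalIntegral

/-- the integrand -/
noncomputable def Rf (a b c n : ℕ) (s : ℝ) : ℝ :=
  s ^ (2 * a) * (25 - s ^ 2) ^ b * (49 - s ^ 2) ^ c / (1225 - s ^ 2) ^ (n + 1)

/-- the numerator -/
noncomputable def PN (a b c : ℕ) : ℤ[X] := X ^ (2 * a) * (C 25 - X ^ 2) ^ b * (C 49 - X ^ 2) ^ c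

/-- the denominator -/
noncomputable def PM (n : ℕ) : ℤ[X] := (X ^ 2 - C 1225) ^ (n + 1)

theorem PM_monic (n : ℕ) : (PM n).Monic := by
  unfold PM
  exact (monic_X_pow_sub_C (1225 : ℤ) (by norm_num)).pow _

theorem PM_degree (n : ℕ) : (PM n).degree = ((2 * (n + 1) : ℕ) : WithBot ℕ) := by
  have h : (PM n).natDegree = 2 * (n + 1) := by
    unfold PM
    rw [(monic_X_pow_sub_C (1225 : ℤ) (by norm_num)).natDegree_pow, natDegree_X_pow_sub_C]
    ring
  rw [degree_eq_natDegree (PM_monic n).ne_zero, h]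

/-- the polynomial part of the integrand -/
noncomputable def QQ (a b c n : ℕ) : ℤ[X] := PN a b c /ₘ PM n

theorem QQ_natDegree (a b c n : ℕ) : (QQ a b c n).natDegree ≤ 2 * a + 2 * b + 2 * c - 2 * n - 2 := by
  unfold QQ
  rw [natDegree_divByMonic _ (PM_monic n)]
  have h1 : (PM n).natDegree = 2 * (n + 1) := natDegree_eq_of_degree_eq_some (PM_degree n)
  have h25 : ∀ k : ℤ, (C k - X ^ 2 : ℤ[X]).natDegree ≤ 2 := by
    intro k
    refine (natDegree_sub_le _ _).trans ?_
    rw [natDegree_C, natDegree_X_pow]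
    simp
  have h2 : (PN a b c).natDegree ≤ 2 * a + 2 * b + 2 * c := by
    unfold PN
    refine natDegree_mul_le.trans ?_
    have p1 : (X ^ (2 * a) * (C 25 - X ^ 2) ^ b : ℤ[X]).natDegree ≤ 2 * a + 2 * b := by
      refine natDegree_mul_le.trans ?_
      have q1 : ((C 25 - X ^ 2 : ℤ[X]) ^ b).natDegree ≤ 2 * b := by
        refine natDegree_pow_le.trans ?_
        rw [mul_comm]
        exact Nat.mul_le_mul_right _ (h25 25)
      rw [natDegree_X_pow]
      omega
    have q2 : ((C 49 - X ^ 2 : ℤ[X]) ^ c).natDegree ≤ 2 * c := by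
      refine natDegree_pow_le.trans ?_
      rw [mul_comm]
      exact Nat.mul_le_mul_right _ (h25 49)
    omega
  omega

theorem Lw_degree (a b c n : ℕ) :
    (Lw a b c n (C 35 - X : ℤ[X]) (C 35 + X)).degree < ((2 * (n + 1) : ℕ) : WithBot ℕ) := by
  unfold Lw
  refine lt_of_le_of_lt (degree_sum_le _ _) ?_
  rw [Finset.sup_lt_iff (by exact WithBot.bot_lt_coe _)]
  intro j hj
  rw [mem_range] at hj
  have d1 : (C 35 - X : ℤ[X]).natDegree ≤ 1 := by
    refine (natDegree_sub_le _ _).trans ?_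
    rw [natDegree_C, natDegree_X]
    simp
  have d2 : (C 35 + X : ℤ[X]).natDegree ≤ 1 := by
    refine (natDegree_add_le _ _).trans ?_
    rw [natDegree_C, natDegree_X]
    simp
  have p1 : ∀ k, ((C 35 - X : ℤ[X]) ^ k).natDegree ≤ k := fun k => by
    refine natDegree_pow_le.trans ?_
    calc _ ≤ k * 1 := Nat.mul_le_mul_left _ d1
      _ = k := mul_one k
  have p2 : ∀ k, ((C 35 + X : ℤ[X]) ^ k).natDegree ≤ k := fun k => by
    refine natDegree_pow_le.trans ?_
    calc _ ≤ k * 1 := Nat.mul_le_mul_left _ d2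
      _ = k := mul_one k
  have h1 : ((((FL a b c n).coeff j : ℤ) : ℤ[X]) * ((C 35 - X) ^ j * (C 35 + X) ^ (n + 1) +
      (C 35 + X) ^ j * (C 35 - X) ^ (n + 1))).natDegree ≤ 2 * n + 1 := by
    rw [← C_eq_intCast]
    refine (natDegree_C_mul_le _ _).trans ((natDegree_add_le _ _).trans (max_le ?_ ?_))
    · refine natDegree_mul_le.trans ?_
      have := p1 j; have := p2 (n + 1); omega
    · refine natDegree_mul_le.trans ?_
      have := p2 j; have := p1 (n + 1); omega
  refine lt_of_le_of_lt degree_le_natDegree ?_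
  exact_mod_cast Nat.lt_of_le_of_lt h1 (by omega)

/-- the polynomial part is `Up` up to a constant -/
theorem QQ_eq (a b c n : ℕ) (h : 2 * n + 2 ≤ 2 * a + 2 * b + 2 * c) :
    C (4 ^ a * 49 ^ b * 25 ^ c) * QQ a b c n =
      (-1) ^ (n + 1) * Up a b c n (C 35 - X : ℤ[X]) (C 35 + X) := by
  have hd := decomp a b c n h (C 35 - X : ℤ[X]) (C 35 + X) (by
    simp only [map_ofNat]; ring)
  set U := Up a b c n (C 35 - X : ℤ[X]) (C 35 + X) with hU
  set L := Lw a b c n (C 35 - X : ℤ[X]) (C 35 + X) with hL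
  have e1 : ((C 35 + X - (C 35 - X) : ℤ[X]) ^ (2 * a) *
      ((4 * (C 35 - X) - 3 * (C 35 + X)) * (4 * (C 35 + X) - 3 * (C 35 - X))) ^ b *
      ((3 * (C 35 - X) - 2 * (C 35 + X)) * (3 * (C 35 + X) - 2 * (C 35 - X))) ^ c) =
      C (4 ^ a * 49 ^ b * 25 ^ c) * PN a b c := by
    unfold PN
    have a1 : (C 35 + X - (C 35 - X) : ℤ[X]) = 2 * X := by ring
    have a2 : ((4 * (C 35 - X) - 3 * (C 35 + X)) * (4 * (C 35 + X) - 3 * (C 35 - X)) : ℤ[X]) =
        49 * (C 25 - X ^ 2) := by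
      simp only [map_ofNat]; ring
    have a3 : ((3 * (C 35 - X) - 2 * (C 35 + X)) * (3 * (C 35 + X) - 2 * (C 35 - X)) : ℤ[X]) =
        25 * (C 49 - X ^ 2) := by
      simp only [map_ofNat]; ring
    rw [a1, a2, a3, mul_pow, mul_pow, mul_pow, pow_mul (2 : ℤ[X])]
    simp only [C_mul, C_pow, map_ofNat]
    norm_num
    ring
  have e2 : (((C 35 - X) * (C 35 + X) : ℤ[X]) ^ (n + 1)) = (-1) ^ (n + 1) * PM n := by
    unfold PM
    rw [← mul_pow]
    congr 1
    simp only [map_ofNat]; ring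
  rw [e1, e2] at hd
  have u1 := div_modByMonic_unique (f := C (4 ^ a * 49 ^ b * 25 ^ c) * PN a b c) (g := PM n)
    ((-1) ^ (n + 1) * U) L (PM_monic n) ⟨by rw [hd]; ring, by
      rw [PM_degree]; exact Lw_degree a b c n⟩
  have u2 := div_modByMonic_unique (f := C (4 ^ a * 49 ^ b * 25 ^ c) * PN a b c) (g := PM n)
    (C (4 ^ a * 49 ^ b * 25 ^ c) * QQ a b c n) (C (4 ^ a * 49 ^ b * 25 ^ c) * (PN a b c %ₘ PM n))
    (PM_monic n) ⟨by
      have := modByMonic_add_div (PN a b c) (PM n)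
      unfold QQ
      conv_rhs => rw [← this]
      ring, by
      refine lt_of_le_of_lt ?_ (degree_modByMonic_lt (PN a b c) (PM_monic n))
      refine (degree_mul_le _ _).trans ?_
      calc _ ≤ 0 + (PN a b c %ₘ PM n).degree := add_le_add_left degree_C_le _
        _ = _ := zero_add _⟩
  rw [← u1.1, u2.1]

theorem Up_eval (a b c n : ℕ) (s : ℝ) :
    aeval s (Up a b c n (C 35 - X : ℤ[X]) (C 35 + X)) = Up a b c n (35 - s) (35 + s) := by
  unfold Up
  simp only [map_add, map_sum, map_mul, map_pow, map_sub, aeval_X, aeval_C, map_intCast]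
  norm_num

/-- decomposition of the integrand -/
theorem Rf_eq (a b c n : ℕ) (h : 2 * n + 2 ≤ 2 * a + 2 * b + 2 * c) {s : ℝ} (h1 : -35 < s)
    (h2 : s < 35) : Rf a b c n s = (-1) ^ (n + 1) * aeval s (QQ a b c n) +
      (∑ j ∈ range (n + 1), ((FL a b c n).coeff j : ℝ) *
        ((35 - s) ^ ((j : ℤ) - n - 1) + (35 + s) ^ ((j : ℤ) - n - 1))) / (4 ^ a * 49 ^ b * 25 ^ c) := by
  have ht : 0 < 35 - s := by linarith
  have ht' : 0 < 35 + s := by linarith
  have hK : (0 : ℝ) < 4 ^ a * 49 ^ b * 25 ^ c := by positivity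
  have hq := congrArg (aeval s) (QQ_eq a b c n h)
  rw [map_mul (aeval s), map_mul (aeval s), Up_eval, map_pow, map_neg, map_one, aeval_C] at hq
  have hq' : (4 ^ a * 49 ^ b * 25 ^ c : ℝ) * aeval s (QQ a b c n) =
      (-1) ^ (n + 1) * Up a b c n (35 - s) (35 + s) := by
    rw [← hq]
    simp
  have hU : Up a b c n (35 - s) (35 + s) =
      (-1) ^ (n + 1) * ((4 ^ a * 49 ^ b * 25 ^ c : ℝ) * aeval s (QQ a b c n)) := by
    rw [hq', ← mul_assoc, ← mul_pow]
    norm_num
  have hd := decomp a b c n h (35 - s) (35 + s) (by ring)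
  have e1 : (35 + s - (35 - s)) ^ (2 * a) * ((4 * (35 - s) - 3 * (35 + s)) *
      (4 * (35 + s) - 3 * (35 - s))) ^ b * ((3 * (35 - s) - 2 * (35 + s)) *
      (3 * (35 + s) - 2 * (35 - s))) ^ c = (4 ^ a * 49 ^ b * 25 ^ c) *
        (s ^ (2 * a) * (25 - s ^ 2) ^ b * (49 - s ^ 2) ^ c) := by
    have a1 : 35 + s - (35 - s) = 2 * s := by ring
    have a2 : ((4 * (35 - s) - 3 * (35 + s)) * (4 * (35 + s) - 3 * (35 - s))) =
        49 * (25 - s ^ 2) := by ring
    have a3 : ((3 * (35 - s) - 2 * (35 + s)) * (3 * (35 + s) - 2 * (35 - s))) =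
        25 * (49 - s ^ 2) := by ring
    rw [a1, a2, a3, mul_pow, mul_pow, mul_pow, pow_mul (2 : ℝ)]
    norm_num
    ring
  rw [e1, hU] at hd
  have e2 : (1225 - s ^ 2) = (35 - s) * (35 + s) := by ring
  have hL : Lw a b c n (35 - s) (35 + s) = ((35 - s) * (35 + s)) ^ (n + 1) *
      ∑ j ∈ range (n + 1), ((FL a b c n).coeff j : ℝ) *
        ((35 - s) ^ ((j : ℤ) - n - 1) + (35 + s) ^ ((j : ℤ) - n - 1)) := by
    unfold Lw
    rw [mul_sum]
    apply sum_congr rfl
    intro j _
    have z1 : ∀ x : ℝ, 0 < x → x ^ (n + 1) * x ^ ((j : ℤ) - n - 1) = x ^ j := by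
      intro x hx
      rw [← zpow_natCast x (n + 1), ← zpow_add₀ hx.ne', ← zpow_natCast x j]
      congr 1
      push_cast
      ring
    rw [mul_pow, ← z1 _ ht, ← z1 _ ht']
    ring
  rw [hL] at hd
  unfold Rf
  rw [e2, div_eq_iff (by positivity), add_mul, div_mul_eq_mul_div, eq_comm]
  have hKne := hK.ne'
  field_simp
  linear_combination (-1 : ℝ) * hd

/-- the rational part of the polar integral -/
noncomputable def rp (f : ℕ → ℤ) (n : ℕ) (x : ℝ) : ℝ :=
  ∑ j ∈ range n, (f j : ℝ) * (x ^ ((j : ℤ) - n) / ((j : ℝ) - n))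

theorem polar_int (f : ℕ → ℤ) (n : ℕ) {u v : ℝ} (hu : 0 < u) (hv : 0 < v) :
    ∫ x in u..v, ∑ j ∈ range (n + 1), (f j : ℝ) * x ^ ((j : ℤ) - n - 1) =
      (f n : ℝ) * Real.log (v / u) + (rp f n v - rp f n u) := by
  have h0 : ∀ x ∈ Set.uIcc u v, 0 < x := by
    intro x hx
    rcases Set.mem_uIcc.1 hx with h | h
    · linarith [h.1]
    · linarith [h.1]
  have hint : ∀ j : ℤ, IntervalIntegrable (fun x : ℝ => x ^ (j - n - 1)) volume u v := by
    intro j
    apply ContinuousOn.intervalIntegrable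
    intro x hx
    exact (continuousAt_zpow₀ x _ (Or.inl (h0 x hx).ne')).continuousWithinAt
  rw [intervalIntegral.integral_finsetSum]
  swap
  · intro j _
    exact (hint j).const_mul _
  rw [sum_range_succ]
  have e2 : ∫ x in u..v, (f n : ℝ) * x ^ ((n : ℤ) - n - 1) = (f n : ℝ) * Real.log (v / u) := by
    rw [intervalIntegral.integral_const_mul]
    congr 1
    rw [show ((n : ℤ) - n - 1) = -1 by ring]
    simp only [zpow_neg_one]
    rw [integral_inv]
    intro h
    exact lt_irrefl _ (h0 0 h)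
  rw [e2, add_comm]
  congr 1
  unfold rp
  rw [← sum_sub_distrib]
  apply sum_congr rfl
  intro j hj
  rw [mem_range] at hj
  have hjn : (j : ℤ) - n - 1 ≠ -1 := by
    intro h
    omega
  rw [intervalIntegral.integral_const_mul, integral_zpow]
  · rw [← mul_sub]
    congr 1
    rw [show (j : ℤ) - n - 1 + 1 = (j : ℤ) - n by ring]
    push_cast
    rw [show ((j : ℝ) - n - 1 + 1) = (j : ℝ) - n by ring]
    ring
  · right
    exact ⟨hjn, fun h => lt_irrefl _ (h0 0 h)⟩

/-- the polynomial part of the integral -/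
noncomputable def qp (a b c n : ℕ) (y : ℝ) : ℝ :=
  ∑ j ∈ range (2 * a + 2 * b + 2 * c - 2 * n - 1), ((QQ a b c n).coeff j : ℝ) * (y ^ (j + 1) / ((j : ℝ) + 1))

theorem qq_int (a b c n : ℕ) (h : 2 * n + 2 ≤ 2 * a + 2 * b + 2 * c) (y : ℝ) :
    ∫ s in (0:ℝ)..y, aeval s (QQ a b c n) = qp a b c n y := by
  have e1 : ∀ s : ℝ, aeval s (QQ a b c n) = ∑ j ∈ range (2 * a + 2 * b + 2 * c - 2 * n - 1),
      ((QQ a b c n).coeff j : ℝ) * s ^ j := by
    intro s
    rw [aeval_eq_sum_range' (n := 2 * a + 2 * b + 2 * c - 2 * n - 1)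
      (lt_of_le_of_lt (QQ_natDegree a b c n) (by omega))]
    apply sum_congr rfl
    intro j _
    rw [zsmul_eq_mul]
  simp only [e1]
  rw [intervalIntegral.integral_finsetSum]
  swap
  · intro j _
    exact (Continuous.intervalIntegrable (by fun_prop) _ _)
  unfold qp
  apply sum_congr rfl
  intro j _
  rw [intervalIntegral.integral_const_mul, integral_pow]
  simp

/-- the integral as a linear form in `1` and a logarithm -/
theorem Rf_int (a b c n : ℕ) (h : 2 * n + 2 ≤ 2 * a + 2 * b + 2 * c) {y : ℝ} (h1 : 0 ≤ y)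
    (h2 : y < 35) : ∫ s in (0:ℝ)..y, Rf a b c n s =
      ((FL a b c n).coeff n : ℝ) / (4 ^ a * 49 ^ b * 25 ^ c) * Real.log ((35 + y) / (35 - y)) +
      ((rp (fun j => (FL a b c n).coeff j) n (35 + y) - rp (fun j => (FL a b c n).coeff j) n (35 - y)) /
        (4 ^ a * 49 ^ b * 25 ^ c) + (-1) ^ (n + 1) * qp a b c n y) := by
  set f : ℕ → ℤ := fun j => (FL a b c n).coeff j with hf
  set g : ℝ → ℝ := fun x => ∑ j ∈ range (n + 1), (f j : ℝ) * x ^ ((j : ℤ) - n - 1) with hg
  have hcont : ∀ u v : ℝ, 0 < u → 0 < v → IntervalIntegrable g volume u v := by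
    intro u v hu hv
    apply ContinuousOn.intervalIntegrable
    intro x hx
    have hx0 : 0 < x := by
      rcases Set.mem_uIcc.1 hx with h | h
      · linarith [h.1]
      · linarith [h.1]
    apply ContinuousAt.continuousWithinAt
    rw [hg]
    apply tendsto_finsetSum
    intro j _
    exact (continuousAt_const.mul (continuousAt_zpow₀ x _ (Or.inl hx0.ne')))
  have e0 : ∫ s in (0:ℝ)..y, Rf a b c n s = ∫ s in (0:ℝ)..y, ((-1) ^ (n + 1) * aeval s (QQ a b c n) +
      (g (35 - s) + g (35 + s)) / (4 ^ a * 49 ^ b * 25 ^ c)) := by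
    apply intervalIntegral.integral_congr
    intro s hs
    rw [Set.uIcc_of_le h1] at hs
    show Rf a b c n s = _
    rw [Rf_eq a b c n h (by linarith [hs.1]) (by linarith [hs.2])]
    congr 2
    rw [hg, ← sum_add_distrib]
    apply sum_congr rfl
    intro j _
    ring
  have i1 : IntervalIntegrable (fun s => g (35 - s)) volume 0 y := by
    have := (hcont 35 (35 - y) (by norm_num) (by linarith)).comp_sub_left 35
    simpa using this
  have i2 : IntervalIntegrable (fun s => g (35 + s)) volume 0 y := by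
    have := (hcont 35 (35 + y) (by norm_num) (by linarith)).comp_add_left 35
    simpa using this
  have i3 : IntervalIntegrable (fun s : ℝ => (-1 : ℝ) ^ (n + 1) * aeval s (QQ a b c n)) volume 0 y := by
    apply Continuous.intervalIntegrable
    have : Continuous fun s : ℝ => aeval s (QQ a b c n) := Polynomial.continuous_aeval _
    fun_prop
  rw [e0, intervalIntegral.integral_add i3 ((i1.add i2).div_const _),
    intervalIntegral.integral_const_mul, qq_int a b c n h, intervalIntegral.integral_div,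
    intervalIntegral.integral_add i1 i2, intervalIntegral.integral_comp_sub_left (f := g) 35,
    intervalIntegral.integral_comp_add_left (f := g) 35]
  rw [show (35 : ℝ) - 0 = 35 by norm_num, show (35 : ℝ) + 0 = 35 by norm_num,
    intervalIntegral.integral_add_adjacent_intervals (hcont _ _ (by linarith) (by norm_num))
      (hcont _ _ (by norm_num) (by linarith)), hg, polar_int f n (by linarith) (by linarith)]
  ring

end Pool.Agent.J6H8.Sal
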