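import Mathlib
import Pool.Agent.J6H8.Sal.Int

set_option autoImplicit false

/-!
The key inequality for `u log (4/3) + v log (3/2)`.
-/

namespace Pool.Agent.J6H8.Sal

open Polynomial Finset MeasureTheory intervalIntegral

theorem sup_bound {y : ℝ} (h0 : 0 ≤ y) (h1 : y ≤ 49) : 251 * (y * |25 - y| * (49 - y)) ≤ (1225 - y) ^ 2 := by
  rcases le_total y 25 with h | h
  · rw [abs_of_nonneg (by linarith)]
    nlinarith [mul_nonneg (sq_nonneg (y - 10.618)) (show 0 ≤ 25 - y by linarith),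
      mul_nonneg (sq_nonneg (y - 10.618)) h0, sq_nonneg (y - 10.618)]
  · rw [abs_of_nonpos (by linarith)]
    nlinarith [mul_nonneg (sq_nonneg (y - 38.7)) (show 0 ≤ 49 - y by linarith),
      mul_nonneg (sq_nonneg (y - 38.7)) h0, sq_nonneg (y - 38.7)]

theorem Rf_abs (m e1 e2 : ℕ) (he1 : e1 ≤ 1) (he2 : e2 ≤ 1) {s : ℝ} (h0 : 0 ≤ s) (h7 : s ≤ 7) :
    |Rf m (m + e2) (m + e1) (2 * m) s| ≤ 2 * (1 / 251) ^ m := by
  have hy0 : 0 ≤ s ^ 2 := by positivity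
  have hy1 : s ^ 2 ≤ 49 := by nlinarith
  have hb := sup_bound hy0 hy1
  have hd : 0 < 1225 - s ^ 2 := by linarith
  unfold Rf
  have e49 : |49 - s ^ 2| = 49 - s ^ 2 := abs_of_nonneg (by linarith)
  rw [abs_div, abs_mul, abs_mul, abs_pow, abs_pow, abs_pow, abs_pow, abs_of_pos hd, abs_of_nonneg h0,
    e49, div_le_iff₀ (by positivity)]
  have h1 : (s ^ 2 * |25 - s ^ 2| * (49 - s ^ 2)) ^ m ≤ (1 / 251 * (1225 - s ^ 2) ^ 2) ^ m := by
    apply pow_le_pow_left₀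
    · have : 0 ≤ 49 - s ^ 2 := by linarith
      positivity
    · linarith
  have h2 : |25 - s ^ 2| ^ e2 ≤ 25 := by
    have h3 : |25 - s ^ 2| ≤ 25 := by rw [abs_le]; constructor <;> linarith
    interval_cases e2
    · norm_num
    · simpa using h3
  have h3 : (49 - s ^ 2) ^ e1 ≤ 49 := by
    interval_cases e1
    · norm_num
    · rw [pow_one]; linarith
  have h49 : 0 ≤ 49 - s ^ 2 := by linarith
  have h4 : |25 - s ^ 2| ^ e2 * (49 - s ^ 2) ^ e1 ≤ 2 * (1225 - s ^ 2) := by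
    have : |25 - s ^ 2| ^ e2 * (49 - s ^ 2) ^ e1 ≤ 25 * 49 :=
      mul_le_mul h2 h3 (by positivity) (by norm_num)
    linarith
  calc s ^ (2 * m) * |25 - s ^ 2| ^ (m + e2) * (49 - s ^ 2) ^ (m + e1)
      = (s ^ 2 * |25 - s ^ 2| * (49 - s ^ 2)) ^ m * (|25 - s ^ 2| ^ e2 * (49 - s ^ 2) ^ e1) := by
        rw [pow_add, pow_add, pow_mul, mul_pow, mul_pow]; ring
    _ ≤ (1 / 251 * (1225 - s ^ 2) ^ 2) ^ m * (2 * (1225 - s ^ 2)) :=
        mul_le_mul h1 h4 (by positivity) (by positivity)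
    _ = 2 * (1 / 251) ^ m * (1225 - s ^ 2) ^ (2 * m + 1) := by
        rw [mul_pow, ← pow_mul, pow_succ]; ring

theorem Rf_cont (a b c n : ℕ) {u v : ℝ} (hu0 : 0 ≤ u) (hu : u ≤ 7) (hv0 : 0 ≤ v) (hv : v ≤ 7) :
    IntervalIntegrable (Rf a b c n) volume u v := by
  apply ContinuousOn.intervalIntegrable
  intro x hx
  have hx0 : 0 ≤ x ∧ x ≤ 7 := by
    rcases Set.mem_uIcc.1 hx with h | h
    · constructor <;> linarith [h.1, h.2]
    · constructor <;> linarith [h.1, h.2]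
  apply ContinuousAt.continuousWithinAt
  unfold Rf
  apply ContinuousAt.div
  · fun_prop
  · fun_prop
  · have : 0 < 1225 - x ^ 2 := by nlinarith [hx0.1, hx0.2]
    positivity

theorem Rf_int_abs (m e1 e2 : ℕ) (he1 : e1 ≤ 1) (he2 : e2 ≤ 1) {u v : ℝ} (hu : 0 ≤ u) (huv : u ≤ v)
    (hv : v ≤ 7) :
    |∫ s in u..v, Rf m (m + e2) (m + e1) (2 * m) s| ≤ 2 * (1 / 251) ^ m * (v - u) := by
  have := intervalIntegral.norm_integral_le_of_norm_le_const (a := u) (b := v)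
    (f := Rf m (m + e2) (m + e1) (2 * m)) (C := 2 * (1 / 251) ^ m) (by
      intro x hx
      rw [Set.uIoc_of_le huv] at hx
      rw [Real.norm_eq_abs]
      exact Rf_abs m e1 e2 he1 he2 (by linarith [hx.1]) (by linarith [hx.2]))
  rw [Real.norm_eq_abs, abs_of_nonneg (show 0 ≤ v - u by linarith)] at this
  exact this

theorem int1_pos (a b c n : ℕ) : 0 < ∫ s in (0:ℝ)..5, Rf a b c n s := by
  apply intervalIntegral.intervalIntegral_pos_of_pos_on
  · exact Rf_cont a b c n le_rfl (by norm_num) (by norm_num) (by norm_num)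
  · intro x hx
    have h1 : 0 < x := hx.1
    have h2 : 0 < 25 - x ^ 2 := by nlinarith [hx.2, hx.1]
    have h3 : 0 < 49 - x ^ 2 := by nlinarith [hx.2, hx.1]
    have h4 : 0 < 1225 - x ^ 2 := by nlinarith [hx.2, hx.1]
    unfold Rf
    positivity
  · norm_num

theorem int2_neg (a b c n : ℕ) (hb : Odd b) : ∫ s in (5:ℝ)..7, Rf a b c n s < 0 := by
  have : 0 < ∫ s in (5:ℝ)..7, -Rf a b c n s := by
    apply intervalIntegral.intervalIntegral_pos_of_pos_on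
    · exact (Rf_cont a b c n (by norm_num) (by norm_num) (by norm_num) (by norm_num)).neg
    · intro x hx
      have h1 : 0 < x := by linarith [hx.1]
      have h2 : 0 < x ^ 2 - 25 := by nlinarith [hx.2, hx.1]
      have h3 : 0 < 49 - x ^ 2 := by nlinarith [hx.2, hx.1]
      have h4 : 0 < 1225 - x ^ 2 := by nlinarith [hx.2, hx.1]
      unfold Rf
      rw [show (25 - x ^ 2) = -(x ^ 2 - 25) by ring, hb.neg_pow]
      have e : -(x ^ (2 * a) * -(x ^ 2 - 25) ^ b * (49 - x ^ 2) ^ c / (1225 - x ^ 2) ^ (n + 1)) =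
        x ^ (2 * a) * (x ^ 2 - 25) ^ b * (49 - x ^ 2) ^ c / (1225 - x ^ 2) ^ (n + 1) := by ring
      rw [e]
      positivity
    · norm_num
  rw [intervalIntegral.integral_neg] at this
  linarith

theorem int_dvd_lcm' {N : ℕ} {z : ℤ} (hz : z ≠ 0) (h : z.natAbs ≤ N) :
    z ∣ (Nat.lcmUpto N : ℤ) := by
  rw [← Int.natAbs_dvd, Int.natCast_dvd_natCast]
  unfold Nat.lcmUpto
  have hm : z.natAbs ∈ Icc 1 N := by
    rw [mem_Icc]
    exact ⟨Int.natAbs_pos.2 hz, h⟩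
  exact dvd_lcm (f := id) hm

theorem rp_integral (f : ℕ → ℤ) (n : ℕ) (x K c0 L : ℤ) (hx : 0 < x) (hK : 0 < K)
    (hdiv : ∀ j, j < n → K * x ^ (n - j) ∣ c0 * f j) (hL : ∀ j : ℕ, j < n → ((j : ℤ) - n) ∣ L) :
    ∃ z : ℤ, (c0 : ℝ) * L * (rp f n x / K) = z := by
  have key : ∀ j ∈ range n, ∃ z : ℤ,
      (c0 : ℝ) * L * ((f j : ℝ) * ((x : ℝ) ^ ((j : ℤ) - n) / ((j : ℝ) - n)) / K) = z := by
    intro j hj
    rw [mem_range] at hj
    obtain ⟨g, hg⟩ := hdiv j hj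
    obtain ⟨d, hd⟩ := hL j hj
    have hxr : (0 : ℝ) < x := by exact_mod_cast hx
    have hKr : (0 : ℝ) < K := by exact_mod_cast hK
    have hjn : ((j : ℝ) - n) ≠ 0 := by
      have : (j : ℝ) < n := by exact_mod_cast hj
      linarith
    have hg' : (c0 : ℝ) * f j = K * (x : ℝ) ^ (n - j) * g := by exact_mod_cast hg
    have hd' : (L : ℝ) = ((j : ℝ) - n) * d := by exact_mod_cast hd
    have hz : (x : ℝ) ^ ((j : ℤ) - n) * (x : ℝ) ^ (n - j) = 1 := by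
      rw [← zpow_natCast (x : ℝ) (n - j), ← zpow_add₀ hxr.ne']
      have : (j : ℤ) - n + ((n - j : ℕ) : ℤ) = 0 := by omega
      rw [this, zpow_zero]
    refine ⟨d * g, ?_⟩
    push_cast
    calc (c0 : ℝ) * L * ((f j : ℝ) * ((x : ℝ) ^ ((j : ℤ) - n) / ((j : ℝ) - n)) / K)
        = ((c0 : ℝ) * f j) * (L / ((j : ℝ) - n)) * (x : ℝ) ^ ((j : ℤ) - n) / K := by
          field_simp
      _ = (K * (x : ℝ) ^ (n - j) * g) * d * (x : ℝ) ^ ((j : ℤ) - n) / K := by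
          rw [hg', hd', mul_comm ((j : ℝ) - n) (d : ℝ), mul_div_assoc (d : ℝ), div_self hjn, mul_one]
      _ = g * d * ((x : ℝ) ^ ((j : ℤ) - n) * (x : ℝ) ^ (n - j)) := by field_simp
      _ = d * g := by rw [hz]; ring
  choose! z hz using key
  refine ⟨∑ j ∈ range n, z j, ?_⟩
  unfold rp
  rw [sum_div, mul_sum]
  push_cast
  exact sum_congr rfl hz

theorem qp_integral (a b c n : ℕ) (y L : ℤ)
    (hL : ∀ j : ℕ, j < 2 * a + 2 * b + 2 * c - 2 * n - 1 → ((j : ℤ) + 1) ∣ L) :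
    ∃ z : ℤ, (L : ℝ) * qp a b c n y = z := by
  have key : ∀ j ∈ range (2 * a + 2 * b + 2 * c - 2 * n - 1), ∃ z : ℤ,
      (L : ℝ) * (((QQ a b c n).coeff j : ℝ) * ((y : ℝ) ^ (j + 1) / ((j : ℝ) + 1))) = z := by
    intro j hj
    rw [mem_range] at hj
    obtain ⟨d, hd⟩ := hL j hj
    have hjn : ((j : ℝ) + 1) ≠ 0 := by positivity
    have hd' : (L : ℝ) = ((j : ℝ) + 1) * d := by exact_mod_cast hd
    refine ⟨d * (QQ a b c n).coeff j * y ^ (j + 1), ?_⟩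
    push_cast
    rw [hd']
    field_simp
  choose! z hz using key
  refine ⟨∑ j ∈ range (2 * a + 2 * b + 2 * c - 2 * n - 1), z j, ?_⟩
  unfold qp
  rw [mul_sum]
  push_cast
  exact sum_congr rfl hz

theorem key (m : ℕ) (hm : 1 ≤ m) (u v : ℤ) (huv : 0 < u + v) (hv : v < 0) :
    (1 : ℝ) ≤ 70 * 2 ^ m * Nat.lcmUpto (2 * m + 3) *
      (2 * (1 / 251) ^ m * (5 * ((u : ℝ) + v) + 2 * (-v)) +
        200000 * 8102 ^ m * |(u : ℝ) * Real.log (4 / 3) + v * Real.log (3 / 2)|) := by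
  set Λ : ℝ := (u : ℝ) * Real.log (4 / 3) + v * Real.log (3 / 2) with hΛ
  -- choice of the parities
  obtain ⟨e2, he2, hb⟩ : ∃ e2 : ℕ, e2 ≤ 1 ∧ (m + e2) % 2 = 1 := by
    rcases Nat.mod_two_eq_zero_or_one m with h | h
    · exact ⟨1, le_rfl, by omega⟩
    · exact ⟨0, by omega, by omega⟩
  obtain ⟨e1, he1, hc⟩ : ∃ e1 : ℕ, e1 ≤ 1 ∧
      ((0 ≤ Λ → (m + e1) % 2 = 0) ∧ (Λ < 0 → (m + e1) % 2 = 1)) := by
    rcases le_or_gt 0 Λ with hL | hL
    · rcases Nat.mod_two_eq_zero_or_one m with h | h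
      · exact ⟨0, by omega, fun _ => by omega, fun h' => absurd hL (not_le.2 h')⟩
      · exact ⟨1, by omega, fun _ => by omega, fun h' => absurd hL (not_le.2 h')⟩
    · rcases Nat.mod_two_eq_zero_or_one m with h | h
      · exact ⟨1, by omega, fun h' => absurd hL (not_lt.2 h'), fun _ => by omega⟩
      · exact ⟨0, by omega, fun h' => absurd hL (not_lt.2 h'), fun _ => by omega⟩
  have hAb := A_bound m e1 e2 hm he1 he2
  have b1 := Rf_int_abs m e1 e2 he1 he2 (u := 0) (v := 5) le_rfl (by norm_num) (by norm_num)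
  have b2 := Rf_int_abs m e1 e2 he1 he2 (u := 5) (v := 7) (by norm_num) (by norm_num) le_rfl
  have d40 := dvd40 m e1 e2
  have d30 := dvd30 m e1 e2
  have d42 := dvd42 m e1 e2
  have d28 := dvd28 m e1 e2
  have hbm : m + e2 ≤ m + 1 := by omega
  have hcm : m + e1 ≤ m + 1 := by omega
  have hbm' : m ≤ m + e2 := by omega
  have hcm' : m ≤ m + e1 := by omega
  generalize m + e2 = b at *
  generalize m + e1 = c at *
  obtain ⟨n, hndef⟩ : ∃ n, n = 2 * m := ⟨_, rfl⟩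
  rw [← hndef] at hAb b1 b2 d40 d30 d42 d28
  obtain ⟨a, hadef⟩ : ∃ a, a = m := ⟨_, rfl⟩
  have hD0 : 2 * n + 2 ≤ 2 * a + 2 * b + 2 * c := by omega
  set L : ℕ := Nat.lcmUpto (2 * m + 3) with hL
  have hLpos : 0 < L := Nat.lcmUpto_pos _
  have hLr : (0 : ℝ) < L := by exact_mod_cast hLpos
  rw [← hadef] at d40 d30 d42 d28
  have hAb' : |((FL a b c n).coeff n : ℝ)| ≤ 200000 * 8102 ^ m * (4 ^ a * 49 ^ b * 25 ^ c) := by
    rw [hadef]; exact hAb
  clear hAb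
  rw [← hadef] at b1 b2
  set f : ℕ → ℤ := fun j => (FL a b c n).coeff j with hf
  obtain ⟨K, hK⟩ : ∃ K : ℤ, K = 4 ^ a * 49 ^ b * 25 ^ c := ⟨_, rfl⟩
  rw [← hK] at d40 d30 d42 d28
  have hKpos : 0 < K := by rw [hK]; positivity
  have hKr : (4 ^ a * 49 ^ b * 25 ^ c : ℝ) = (K : ℝ) := by rw [hK]; push_cast; ring
  have hKr0 : (0 : ℝ) < K := by exact_mod_cast hKpos
  set A : ℝ := (f n : ℝ) / K with hA
  set J1 : ℝ := ∫ s in (0:ℝ)..5, Rf a b c n s with hJ1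
  set J2 : ℝ := ∫ s in (5:ℝ)..7, Rf a b c n s with hJ2
  have hJ12 : J1 + J2 = ∫ s in (0:ℝ)..7, Rf a b c n s :=
    intervalIntegral.integral_add_adjacent_intervals
      (Rf_cont a b c n le_rfl (by norm_num) (by norm_num) (by norm_num))
      (Rf_cont a b c n (by norm_num) (by norm_num) (by norm_num) (by norm_num))
  have f1 := Rf_int a b c n hD0 (y := 5) (by norm_num) (by norm_num)
  have f2 := Rf_int a b c n hD0 (y := 7) (by norm_num) (by norm_num)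
  rw [← hJ1, hKr] at f1
  rw [← hJ12, hKr] at f2
  rw [show ((35 : ℝ) + 5) / (35 - 5) = 4 / 3 by norm_num, show (35 : ℝ) + 5 = ((40 : ℤ) : ℝ) by norm_num,
    show (35 : ℝ) - 5 = ((30 : ℤ) : ℝ) by norm_num, show (5 : ℝ) = ((5 : ℤ) : ℝ) by norm_num] at f1
  rw [show ((35 : ℝ) + 7) / (35 - 7) = 3 / 2 by norm_num, show (35 : ℝ) + 7 = ((42 : ℤ) : ℝ) by norm_num,
    show (35 : ℝ) - 7 = ((28 : ℤ) : ℝ) by norm_num, show (7 : ℝ) = ((7 : ℤ) : ℝ) by norm_num] at f2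
  -- integrality
  have hLd : ∀ j : ℕ, j < n → ((j : ℤ) - n) ∣ (L : ℤ) := by
    intro j hj
    apply int_dvd_lcm'
    · omega
    · omega
  have hLq : ∀ j : ℕ, j < 2 * a + 2 * b + 2 * c - 2 * n - 1 → ((j : ℤ) + 1) ∣ (L : ℤ) := by
    intro j hj
    apply int_dvd_lcm'
    · omega
    · omega
  obtain ⟨z40, h40⟩ := rp_integral f n 40 K (70 * 2 ^ m) L (by norm_num) hKpos
    (fun j hj => by rw [← hadef]; exact d40 j hj) hLd
  obtain ⟨z30, h30⟩ := rp_integral f n 30 K (70 * 2 ^ m) L (by norm_num) hKpos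
    (fun j hj => by rw [← hadef]; exact d30 j hj) hLd
  obtain ⟨z42, h42⟩ := rp_integral f n 42 K (70 * 2 ^ m) L (by norm_num) hKpos
    (fun j hj => by rw [← hadef]; exact d42 j hj) hLd
  obtain ⟨z28, h28⟩ := rp_integral f n 28 K (70 * 2 ^ m) L (by norm_num) hKpos
    (fun j hj => by rw [← hadef]; exact d28 j hj) hLd
  obtain ⟨w5, hw5⟩ := qp_integral a b c n 5 L hLq
  obtain ⟨w7, hw7⟩ := qp_integral a b c n 7 L hLq
  set D : ℝ := 70 * 2 ^ m * (L : ℝ) with hD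
  have hDpos : 0 < D := by positivity
  have hDe : (((70 * 2 ^ m : ℤ) : ℝ) * ((L : ℤ) : ℝ)) = D := by rw [hD]; push_cast; ring
  rw [hDe] at h40 h30 h42 h28
  rw [Int.cast_natCast] at hw5 hw7
  -- signs
  have hbodd : Odd b := Nat.odd_iff.2 hb
  have s1 : 0 < J1 := int1_pos a b c n
  have s2 : J2 < 0 := int2_neg a b c n hbodd
  have hb1 : ((-1 : ℝ)) ^ b = -1 := hbodd.neg_one_pow
  have hn1 : ((-1 : ℝ)) ^ n = 1 := by rw [hndef, pow_mul]; norm_num
  have hfn : (f n : ℝ) = 70 ^ (2 * a + 2 * b + 2 * c - n - 1 - n) * (gg a b c n n : ℝ) := by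
    rw [hf]
    have := FL_coeff' a b c n n le_rfl
    exact_mod_cast this
  have sA : 0 ≤ -(A * Λ) := by
    have h := gg_sign a b c n
    rw [pow_add, pow_add, hn1, hb1] at h
    rcases le_or_gt 0 Λ with hL | hL
    · have he : ((-1 : ℝ)) ^ c = 1 := (Nat.even_iff.2 (hc.1 hL)).neg_one_pow
      rw [he] at h
      have hg0 : (gg a b c n n : ℝ) ≤ 0 := by linarith
      have hA0 : A ≤ 0 := by
        rw [hA, hfn]
        apply div_nonpos_of_nonpos_of_nonneg _ hKr0.le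
        exact mul_nonpos_of_nonneg_of_nonpos (by positivity) hg0
      have := mul_nonpos_of_nonpos_of_nonneg hA0 hL
      linarith
    · have he : ((-1 : ℝ)) ^ c = -1 := (Nat.odd_iff.2 (hc.2 hL)).neg_one_pow
      rw [he] at h
      have hg0 : 0 ≤ (gg a b c n n : ℝ) := by linarith
      have hA0 : 0 ≤ A := by
        rw [hA, hfn]
        positivity
      have := mul_nonpos_of_nonneg_of_nonpos hA0 hL.le
      linarith
  have huvr : (0 : ℝ) < (u : ℝ) + v := by exact_mod_cast huv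
  have hvr : (v : ℝ) < 0 := by exact_mod_cast hv
  have hR : 0 < ((u : ℝ) + v) * J1 + v * J2 - A * Λ := by
    have h1 : 0 < ((u : ℝ) + v) * J1 := mul_pos huvr s1
    have h2 : 0 < v * J2 := mul_pos_of_neg_of_neg hvr s2
    linarith
  obtain ⟨z, hz⟩ : ∃ z : ℤ, D * (((u : ℝ) + v) * J1 + v * J2 - A * Λ) = z := by
    have e : ((u : ℝ) + v) * J1 + v * J2 - A * Λ =
        u * ((rp f n ((40 : ℤ) : ℝ) - rp f n ((30 : ℤ) : ℝ)) / K + (-1) ^ (n + 1) * qp a b c n ((5 : ℤ) : ℝ)) +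
        v * ((rp f n ((42 : ℤ) : ℝ) - rp f n ((28 : ℤ) : ℝ)) / K + (-1) ^ (n + 1) * qp a b c n ((7 : ℤ) : ℝ)) := by
      have e0 : ((u : ℝ) + v) * J1 + v * J2 = u * J1 + v * (J1 + J2) := by ring
      rw [e0, f2, f1, hΛ, hA]
      ring
    refine ⟨u * (z40 - z30 + (-1) ^ (n + 1) * (70 * 2 ^ m) * w5) +
      v * (z42 - z28 + (-1) ^ (n + 1) * (70 * 2 ^ m) * w7), ?_⟩
    rw [e]
    push_cast
    rw [← h40, ← h30, ← h42, ← h28, ← hw5, ← hw7, hD]
    push_cast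
    ring
  have hge : (1 : ℝ) ≤ D * (((u : ℝ) + v) * J1 + v * J2 - A * Λ) := by
    have h0 : (0 : ℝ) < D * (((u : ℝ) + v) * J1 + v * J2 - A * Λ) := mul_pos hDpos hR
    rw [hz] at h0 ⊢
    have h1 : 0 < z := by exact_mod_cast h0
    have h2 : 1 ≤ z := h1
    exact_mod_cast h2
  refine hge.trans (mul_le_mul_of_nonneg_left ?_ hDpos.le)
  -- upper bound
  rw [hadef] at b1 b2
  have u1 : ((u : ℝ) + v) * J1 ≤ ((u : ℝ) + v) * (2 * (1 / 251) ^ m * (5 - 0)) :=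
    mul_le_mul_of_nonneg_left ((le_abs_self _).trans b1) huvr.le
  have u2 : v * J2 ≤ (-v) * (2 * (1 / 251) ^ m * (7 - 5)) := by
    have h0 : -J2 ≤ 2 * (1 / 251) ^ m * (7 - 5) := (neg_le_abs _).trans b2
    have h1 := mul_le_mul_of_nonneg_left h0 (show (0 : ℝ) ≤ -v by linarith)
    have h2 : (-(v : ℝ)) * -J2 = v * J2 := by ring
    rw [h2] at h1
    exact h1
  have u3 : -(A * Λ) ≤ 200000 * 8102 ^ m * |Λ| := by
    have h1 : -(A * Λ) ≤ |A| * |Λ| := by rw [← abs_mul]; exact neg_le_abs _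
    refine h1.trans (mul_le_mul_of_nonneg_right ?_ (abs_nonneg _))
    rw [hA, abs_div, abs_of_pos hKr0, div_le_iff₀ hKr0, ← hKr]
    exact hAb'
  linarith

end Pool.Agent.J6H8.Sal
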