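import Mathlib
import Pool.Agent.J6H8.Sal.Key
import Pool.Agent.H319R2.Measure

set_option autoImplicit false

/-!
A lower bound for `|u log 2 + v log 3|` with exponent `17/4`.
-/

namespace Pool.Agent.J6H8.Sal

open Filter

/-- the key inequality when `lcm(1..n) ≤ C w^n` -/
theorem key2 {C w : ℝ} (hC : 0 < C) (hw : 0 < w) (hlcm : ∀ n : ℕ, (Nat.lcmUpto n : ℝ) ≤ C * w ^ n)
    (m : ℕ) (hm : 1 ≤ m) (u v : ℤ) (huv : 0 < u + v) (hv : v < 0) :
    1 ≤ 70 * C * w ^ 3 * (10 * u * (2 * w ^ 2 / 251) ^ m +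
      200000 * (2 * w ^ 2 * 8102) ^ m * |(u : ℝ) * Real.log (4 / 3) + v * Real.log (3 / 2)|) := by
  have h1 := key m hm u v huv hv
  set L := |(u : ℝ) * Real.log (4 / 3) + v * Real.log (3 / 2)| with hL
  have hL0 : 0 ≤ L := abs_nonneg _
  have huvr : (0 : ℝ) < (u : ℝ) + v := by exact_mod_cast huv
  have hvr : (v : ℝ) < 0 := by exact_mod_cast hv
  have hur : (0 : ℝ) < u := by linarith
  have h2 := hlcm (2 * m + 3)
  have h3 : 5 * ((u : ℝ) + v) + 2 * (-v) ≤ 5 * u := by linarith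
  have h4 : 0 ≤ 5 * ((u : ℝ) + v) + 2 * (-v) := by linarith
  calc (1 : ℝ) ≤ _ := h1
    _ ≤ 70 * 2 ^ m * (C * w ^ (2 * m + 3)) *
      (2 * (1 / 251) ^ m * (5 * u) + 200000 * 8102 ^ m * L) := by gcongr
    _ = _ := by
      have e1 : (2 * w ^ 2 / 251) ^ m = 2 ^ m * w ^ (2 * m) * (1 / 251) ^ m := by
        rw [pow_mul, ← mul_pow, ← mul_pow]; congr 1; ring
      have e2 : (2 * w ^ 2 * 8102) ^ m = 2 ^ m * w ^ (2 * m) * 8102 ^ m := by
        rw [pow_mul, ← mul_pow, ← mul_pow]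
      rw [e1, e2, pow_add w]
      ring

theorem numeric1 : (2 * Real.exp 1.01 ^ 2) ^ 21 * 8102 ^ 4 ≤ 251 ^ 17 := by
  have h1 : (Real.exp 1.01 ^ 2) ^ 21 ≤ Real.exp 1 ^ 43 := by
    rw [← pow_mul, ← Real.exp_nat_mul, ← Real.exp_nat_mul]
    apply Real.exp_le_exp.2
    norm_num
  have h2 : Real.exp 1 ^ 43 ≤ 2.7182818286 ^ 43 :=
    pow_le_pow_left₀ (Real.exp_pos 1).le Real.exp_one_lt_d9.le 43
  rw [mul_pow]
  calc 2 ^ 21 * (Real.exp 1.01 ^ 2) ^ 21 * 8102 ^ 4 ≤ 2 ^ 21 * (2.7182818286 ^ 43) * 8102 ^ 4 := by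
        have := h1.trans h2
        gcongr
    _ ≤ 251 ^ 17 := by norm_num

/-- measure for `u log (4/3) + v log (3/2)`, `u + v > 0 > v` -/
theorem measure_pos : ∃ c : ℝ, 0 < c ∧ ∀ u v : ℤ, 0 < u + v → v < 0 →
    c ≤ (u : ℝ) ^ 17 * |(u : ℝ) * Real.log (4 / 3) + v * Real.log (3 / 2)| ^ 4 := by
  obtain ⟨C, hC, hlcm⟩ := Pool.Agent.H319R2.lcm_bound
  set w : ℝ := Real.exp 1.01 with hw
  have hw0 : 0 < w := Real.exp_pos _
  have hlcm' : ∀ n : ℕ, (Nat.lcmUpto n : ℝ) ≤ C * w ^ n := by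
    intro n
    have := hlcm n
    rw [hw, ← Real.exp_nat_mul]
    rwa [mul_comm (n : ℝ) 1.01]
  set B : ℝ := 70 * C * w ^ 3 with hB
  have hB0 : 0 < B := by positivity
  set r1 : ℝ := 2 * w ^ 2 / 251 with hr1
  set r2 : ℝ := 2 * w ^ 2 * 8102 with hr2
  have hr10 : 0 < r1 := by positivity
  have hr20 : 0 < r2 := by positivity
  have hr : r2 ^ 4 * r1 ^ 17 ≤ 1 := by
    rw [hr1, hr2, div_pow, ← mul_div_assoc, div_le_one (by positivity)]
    calc (2 * w ^ 2 * 8102) ^ 4 * (2 * w ^ 2) ^ 17 = (2 * w ^ 2) ^ 21 * 8102 ^ 4 := by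
          rw [mul_pow (2 * w ^ 2) 8102 4]; ring
      _ ≤ 251 ^ 17 := numeric1
  have hr11 : r1 < 1 := by
    have h2 : 1 < r2 := by
      have : 1 ≤ w := by rw [hw]; exact Real.one_le_exp (by norm_num)
      have h3 : 1 ≤ w ^ 2 := one_le_pow₀ this
      rw [hr2]; linarith
    by_contra h
    push Not at h
    have h3 : 1 ≤ r1 ^ 17 := one_le_pow₀ h
    have h4 : 1 < r2 ^ 4 := one_lt_pow₀ h2 (by norm_num)
    nlinarith
  set K : ℝ := (200000 * B) ^ 4 * (r2 ^ 4 * (1 + (20 * B) ^ 17)) with hK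
  have hK0 : 0 < K := by positivity
  clear_value K r1 r2 B
  refine ⟨1 / (16 * K), by positivity, ?_⟩
  intro u v huv hv
  set L : ℝ := |(u : ℝ) * Real.log (4 / 3) + v * Real.log (3 / 2)| with hL
  have hL0 : 0 ≤ L := abs_nonneg _
  have hu1 : (1 : ℝ) ≤ u := by
    have : 1 ≤ u := by omega
    exact_mod_cast this
  have hex : ∃ m : ℕ, 20 * B * u * r1 ^ (m + 1) ≤ 1 := by
    obtain ⟨m, hm⟩ := exists_pow_lt_of_lt_one (show 0 < 1 / (20 * B * u) by positivity) hr11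
    refine ⟨m, ?_⟩
    rw [lt_div_iff₀ (by positivity)] at hm
    have : r1 ^ (m + 1) ≤ r1 ^ m := pow_le_pow_of_le_one hr10.le hr11.le (by omega)
    have h5 : 0 < 20 * B * u := by positivity
    nlinarith
  classical
  set m := Nat.find hex with hm
  have hm1 : 20 * B * u * r1 ^ (m + 1) ≤ 1 := Nat.find_spec hex
  have hmk := key2 hC hw0 hlcm' (m + 1) (by omega) u v huv hv
  rw [← hL, ← hr1, ← hr2, ← hB] at hmk
  have hlow : 1 / 2 ≤ 200000 * B * r2 ^ (m + 1) * L := by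
    have e : B * (10 * u * r1 ^ (m + 1) + 200000 * r2 ^ (m + 1) * L) =
        (20 * B * u * r1 ^ (m + 1)) / 2 + 200000 * B * r2 ^ (m + 1) * L := by ring
    rw [e] at hmk
    linarith
  have hup : (r2 ^ (m + 1)) ^ 4 ≤ r2 ^ 4 * (1 + (20 * B) ^ 17) * (u : ℝ) ^ 17 := by
    have hu17 : (1 : ℝ) ≤ (u : ℝ) ^ 17 := one_le_pow₀ hu1
    rcases Nat.eq_zero_or_pos m with h0 | h0
    · rw [h0, zero_add, pow_one]
      have h1 : 1 ≤ (1 + (20 * B) ^ 17) * (u : ℝ) ^ 17 := by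
        have : 0 < (20 * B) ^ 17 := by positivity
        nlinarith
      calc r2 ^ 4 = r2 ^ 4 * 1 := by ring
        _ ≤ r2 ^ 4 * ((1 + (20 * B) ^ 17) * (u : ℝ) ^ 17) := mul_le_mul_of_nonneg_left h1 (by positivity)
        _ = _ := by ring
    · have hm2 : ¬ (20 * B * u * r1 ^ (m - 1 + 1) ≤ 1) := Nat.find_min hex (by omega)
      rw [Nat.sub_add_cancel h0] at hm2
      have hm2 : 1 < 20 * B * u * r1 ^ m := not_le.1 hm2
      have h6 : 1 ≤ (20 * B * u * r1 ^ m) ^ 17 := one_le_pow₀ hm2.le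
      have h7 : (r2 ^ m) ^ 4 * (r1 ^ m) ^ 17 ≤ 1 := by
        rw [← pow_mul, ← pow_mul, mul_comm m 4, mul_comm m 17, pow_mul, pow_mul, ← mul_pow]
        exact pow_le_one₀ (by positivity) hr
      have h8 : (r2 ^ m) ^ 4 ≤ (20 * B * u) ^ 17 := by
        have h9 : 0 < (r2 ^ m) ^ 4 := by positivity
        calc (r2 ^ m) ^ 4 = (r2 ^ m) ^ 4 * 1 := by ring
          _ ≤ (r2 ^ m) ^ 4 * (20 * B * u * r1 ^ m) ^ 17 := mul_le_mul_of_nonneg_left h6 h9.le
          _ = ((r2 ^ m) ^ 4 * (r1 ^ m) ^ 17) * (20 * B * u) ^ 17 := by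
              rw [mul_pow (20 * B * (u : ℝ))]; ring
          _ ≤ 1 * (20 * B * u) ^ 17 := mul_le_mul_of_nonneg_right h7 (by positivity)
          _ = (20 * B * u) ^ 17 := one_mul _
      have h10 : (r2 ^ (m + 1)) ^ 4 = r2 ^ 4 * (r2 ^ m) ^ 4 := by
        rw [pow_succ r2 m]; ring
      rw [h10]
      calc r2 ^ 4 * (r2 ^ m) ^ 4 ≤ r2 ^ 4 * (20 * B * u) ^ 17 :=
            mul_le_mul_of_nonneg_left h8 (by positivity)
        _ = r2 ^ 4 * ((20 * B) ^ 17) * (u : ℝ) ^ 17 := by rw [mul_pow (20 * B)]; ring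
        _ ≤ r2 ^ 4 * (1 + (20 * B) ^ 17) * (u : ℝ) ^ 17 := by
            apply mul_le_mul_of_nonneg_right _ (by positivity)
            apply mul_le_mul_of_nonneg_left _ (by positivity)
            linarith
  have h11 : (1 / 2 : ℝ) ^ 4 ≤ (200000 * B * r2 ^ (m + 1) * L) ^ 4 :=
    pow_le_pow_left₀ (by norm_num) hlow 4
  have h12 : (200000 * B * r2 ^ (m + 1) * L) ^ 4 = (200000 * B) ^ 4 * (r2 ^ (m + 1)) ^ 4 * L ^ 4 := by
    rw [mul_pow, mul_pow]
  rw [h12] at h11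
  have h13 : (200000 * B) ^ 4 * (r2 ^ (m + 1)) ^ 4 * L ^ 4 ≤
      (200000 * B) ^ 4 * (r2 ^ 4 * (1 + (20 * B) ^ 17) * (u : ℝ) ^ 17) * L ^ 4 := by
    gcongr
  rw [div_le_iff₀ (by positivity), hK]
  have h14 : (u : ℝ) ^ 17 * L ^ 4 * (16 * ((200000 * B) ^ 4 * (r2 ^ 4 * (1 + (20 * B) ^ 17)))) =
      16 * ((200000 * B) ^ 4 * (r2 ^ 4 * (1 + (20 * B) ^ 17) * (u : ℝ) ^ 17) * L ^ 4) := by ring
  rw [h14]
  have h15 := h11.trans h13
  norm_num at h15 ⊢
  linarith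

/-- **A lower bound for linear forms in `log 2` and `log 3` with exponent `17/4`.** -/
theorem measure : ∃ c : ℝ, 0 < c ∧ ∀ u v : ℤ, (u ≠ 0 ∨ v ≠ 0) →
    c ≤ ((|u| + |v| : ℤ) : ℝ) ^ 17 * |(u : ℝ) * Real.log 2 + v * Real.log 3| ^ 4 := by
  obtain ⟨c0, hc0, hc⟩ := measure_pos
  have e2 : Real.log 2 = Real.log (4 / 3) + Real.log (3 / 2) := by
    rw [← Real.log_mul (by norm_num) (by norm_num)]; norm_num
  have e3 : Real.log 3 = Real.log (4 / 3) + 2 * Real.log (3 / 2) := by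
    have : (2 : ℝ) * Real.log (3 / 2) = Real.log ((3 / 2) ^ 2) := by rw [Real.log_pow]; push_cast; ring
    rw [this, ← Real.log_mul (by norm_num) (by norm_num)]; norm_num
  have h43 : 0 < Real.log (4 / 3) := Real.log_pos (by norm_num)
  have h32 : 0 < Real.log (3 / 2) := Real.log_pos (by norm_num)
  have hdiff : 0 < Real.log (3 / 2) - Real.log (4 / 3) := by
    rw [sub_pos]; exact Real.log_lt_log (by norm_num) (by norm_num)
  set l1 := Real.log (4 / 3) with hl1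
  set l2 := Real.log (3 / 2) with hl2
  set c1 := min l1 (l2 - l1) with hc1
  have hc1p : 0 < c1 := lt_min h43 hdiff
  have c1a : c1 ≤ l1 := min_le_left _ _
  have c1b : c1 ≤ l2 - l1 := min_le_right _ _
  refine ⟨min (c0 / 3 ^ 17) (c1 ^ 4), lt_min (by positivity) (by positivity), ?_⟩
  intro u v huv
  obtain ⟨p, hp⟩ : ∃ p, p = u + v := ⟨_, rfl⟩
  obtain ⟨q, hq⟩ : ∃ q, q = u + 2 * v := ⟨_, rfl⟩
  have hform : (u : ℝ) * Real.log 2 + v * Real.log 3 = (p : ℝ) * l1 + q * l2 := by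
    rw [e2, e3, hp, hq]; push_cast; ring
  rw [hform]
  obtain ⟨N, hN0⟩ : ∃ N, N = |u| + |v| := ⟨_, rfl⟩
  rw [← hN0]
  have hN : (1 : ℝ) ≤ (N : ℝ) := by
    have : (1 : ℤ) ≤ |u| + |v| := by
      rcases huv with h | h
      · have := abs_pos.2 h; have := abs_nonneg v; omega
      · have := abs_pos.2 h; have := abs_nonneg u; omega
    rw [hN0]
    exact_mod_cast this
  have hN17 : (1 : ℝ) ≤ (N : ℝ) ^ 17 := one_le_pow₀ hN
  have hpN : |p| ≤ 3 * N := by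
    rw [hp, hN0]
    have := abs_add_le u v
    have := abs_nonneg u; have := abs_nonneg v
    linarith
  -- large form
  have large : c1 ≤ |(p : ℝ) * l1 + q * l2| →
      min (c0 / 3 ^ 17) (c1 ^ 4) ≤ (N : ℝ) ^ 17 * |(p : ℝ) * l1 + q * l2| ^ 4 := by
    intro h
    have h1 : c1 ^ 4 ≤ |(p : ℝ) * l1 + q * l2| ^ 4 := pow_le_pow_left₀ hc1p.le h 4
    have h2 : 0 ≤ |(p : ℝ) * l1 + q * l2| ^ 4 := by positivity
    refine (min_le_right _ _).trans (h1.trans ?_)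
    nlinarith
  -- small form
  have small : ∀ p' q' : ℤ, |p'| ≤ 3 * N → 0 < p' + q' → q' < 0 →
      min (c0 / 3 ^ 17) (c1 ^ 4) ≤ (N : ℝ) ^ 17 * |(p' : ℝ) * l1 + q' * l2| ^ 4 := by
    intro p' q' hle hpq hq'
    refine (min_le_left _ _).trans ?_
    have h := hc p' q' hpq hq'
    rw [div_le_iff₀ (by positivity)]
    refine h.trans ?_
    have h0 : (0 : ℝ) ≤ p' := by exact_mod_cast (by omega : 0 ≤ p')
    have h1 : (p' : ℝ) ≤ 3 * N := by
      have : p' ≤ 3 * N := (le_abs_self _).trans hle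
      exact_mod_cast this
    calc (p' : ℝ) ^ 17 * |(p' : ℝ) * l1 + q' * l2| ^ 4
        ≤ (3 * N) ^ 17 * |(p' : ℝ) * l1 + q' * l2| ^ 4 :=
          mul_le_mul_of_nonneg_right (pow_le_pow_left₀ h0 h1 17) (by positivity)
      _ = _ := by rw [mul_pow]; ring
  rcases lt_trichotomy q 0 with hq0 | hq0 | hq0
  · have hqr : (q : ℝ) ≤ -1 := by exact_mod_cast (by omega : q ≤ -1)
    rcases le_or_gt p 0 with hp0 | hp0
    · apply large
      have hpr : (p : ℝ) ≤ 0 := by exact_mod_cast hp0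
      rw [abs_of_nonpos (by nlinarith)]
      nlinarith
    · rcases le_or_gt (p + q) 0 with hpq | hpq
      · apply large
        have h1 : (p : ℝ) + q ≤ 0 := by exact_mod_cast hpq
        have h2 : (p : ℝ) * l1 + q * l2 = (p + q) * l1 + q * (l2 - l1) := by ring
        have h3 : ((p : ℝ) + q) * l1 ≤ 0 := mul_nonpos_of_nonpos_of_nonneg h1 h43.le
        have h4 : (q : ℝ) * (l2 - l1) ≤ -(l2 - l1) := by nlinarith
        rw [abs_of_nonpos (by rw [h2]; linarith), h2]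
        linarith
      · exact small p q hpN hpq hq0
  · have hp0 : p ≠ 0 := by
      intro h
      rcases huv with h3 | h3 <;> omega
    apply large
    have h1 : (1 : ℝ) ≤ |(p : ℝ)| := by
      have : (1 : ℤ) ≤ |p| := Int.one_le_abs hp0
      exact_mod_cast this
    rw [hq0, Int.cast_zero, zero_mul, add_zero, abs_mul, abs_of_pos h43]
    nlinarith
  · have hqr : (1 : ℝ) ≤ q := by exact_mod_cast (by omega : 1 ≤ q)
    rcases le_or_gt 0 p with hp0 | hp0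
    · apply large
      have hpr : (0 : ℝ) ≤ p := by exact_mod_cast hp0
      rw [abs_of_nonneg (by nlinarith)]
      nlinarith
    · rcases le_or_gt 0 (p + q) with hpq | hpq
      · apply large
        have h1 : 0 ≤ (p : ℝ) + q := by exact_mod_cast hpq
        have h2 : (p : ℝ) * l1 + q * l2 = (p + q) * l1 + q * (l2 - l1) := by ring
        have h3 : 0 ≤ ((p : ℝ) + q) * l1 := by positivity
        have h4 : (l2 - l1) ≤ (q : ℝ) * (l2 - l1) := by nlinarith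
        rw [abs_of_nonneg (by rw [h2]; linarith), h2]
        linarith
      · have := small (-p) (-q) (by rw [abs_neg]; exact hpN) (by omega) (by omega)
        have e : ((-p : ℤ) : ℝ) * l1 + ((-q : ℤ) : ℝ) * l2 = -((p : ℝ) * l1 + q * l2) := by
          push_cast; ring
        rwa [e, abs_neg] at this

end Pool.Agent.J6H8.Sal
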